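import Pool.Agent.Lib.MP_0d9445_pr.Gauss.Basic

/-! Gaussian toolkit, part 4: stochastic Fubini theorem and exponential moments by Jensen.
The primed statements take any jointly measurable version `Y x` of `W (k x)`. -/

open MeasureTheory ProbabilityTheory Filter Topology
open scoped RealInnerProductSpace NNReal ENNReal

namespace LQ.Gauss

variable {H Ω : Type*} [NormedAddCommGroup H] [InnerProductSpace ℝ H] {mΩ : MeasurableSpace Ω}
  {P : Measure Ω} {W : H → Ω → ℝ} {X : Type*} {mX : MeasurableSpace X} {m : Measure X}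
  {k : X → H} {Y : X → Ω → ℝ}

/-- Jensen for the exponential, with an extended valued right side. -/
theorem ofReal_exp_integral_le {ν : Measure X} [IsProbabilityMeasure ν] {g : X → ℝ}
    (hg : Integrable g ν) :
    ENNReal.ofReal (Real.exp (∫ x, g x ∂ν)) ≤ ∫⁻ x, ENNReal.ofReal (Real.exp (g x)) ∂ν := by
  by_cases h : ∫⁻ x, ENNReal.ofReal (Real.exp (g x)) ∂ν = ∞
  · simp [h]
  have hm : AEStronglyMeasurable (fun x => Real.exp (g x)) ν :=
    Real.continuous_exp.comp_aestronglyMeasurable hg.1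
  have hp : 0 ≤ᵐ[ν] fun x => Real.exp (g x) := ae_of_all _ fun x => (Real.exp_pos _).le
  have hi : Integrable (fun x => Real.exp (g x)) ν := (lintegral_ofReal_ne_top_iff_integrable hm hp).1 h
  rw [← ofReal_integral_eq_lintegral_ofReal hi hp]
  exact ENNReal.ofReal_le_ofReal (convexOn_exp.map_integral_le Real.continuous_exp.continuousOn
    isClosed_univ (ae_of_all _ fun _ => Set.mem_univ _) hg hi)

/-- Two jointly measurable modifications agree on a.e. slice. -/
theorem ae_ae_eq [SFinite m] [SFinite P] {Y Z : X → Ω → ℝ} (hY : Measurable (Function.uncurry Y))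
    (hZ : Measurable (Function.uncurry Z)) (h : ∀ᵐ x ∂m, Y x =ᵐ[P] Z x) :
    ∀ᵐ ω ∂P, ∀ᵐ x ∂m, Y x ω = Z x ω :=
  (Measure.ae_ae_comm (p := fun x ω => Y x ω = Z x ω) (measurableSet_eq_fun hY hZ)).1 h

namespace IsIso

variable [SFinite m]

theorem lintegral_lintegral_enorm_le' (hW : IsIso W P) (hY : Measurable (Function.uncurry Y))
    (hk : ∀ᵐ x ∂m, Y x =ᵐ[P] W (k x)) :
    ∫⁻ ω, ∫⁻ x, ‖Y x ω‖ₑ ∂m ∂P ≤ ∫⁻ x, ‖k x‖ₑ ∂m := by
  have := hW.prob
  rw [← lintegral_lintegral_swap (f := fun x ω => ‖Y x ω‖ₑ) hY.enorm.aemeasurable]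
  refine lintegral_mono_ae ?_
  filter_upwards [hk] with x hx
  refine le_trans (le_of_eq (lintegral_congr_ae ?_)) (hW.lintegral_enorm_le (k x))
  filter_upwards [hx] with ω hω
  rw [hω]

theorem integrable_prod' (hW : IsIso W P) (hY : Measurable (Function.uncurry Y))
    (hk : ∀ᵐ x ∂m, Y x =ᵐ[P] W (k x)) (hi : HasFiniteIntegral k m) :
    Integrable (Function.uncurry Y) (m.prod P) := by
  have := hW.prob
  refine ⟨hY.aestronglyMeasurable, ?_⟩
  rw [HasFiniteIntegral, lintegral_prod_symm _ hY.enorm.aemeasurable]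
  exact (hW.lintegral_lintegral_enorm_le' hY hk).trans_lt hi

theorem ae_integrable' (hW : IsIso W P) (hY : Measurable (Function.uncurry Y))
    (hk : ∀ᵐ x ∂m, Y x =ᵐ[P] W (k x)) (hi : HasFiniteIntegral k m) :
    ∀ᵐ ω ∂P, Integrable (fun x => Y x ω) m := by
  have := hW.prob
  exact (hW.integrable_prod' hY hk hi).prod_left_ae

omit [SFinite m] in
/-- `h ↦ ∫_A W h` as a continuous linear functional -/
theorem exists_setIntegral_clm (hW : IsIso W P) (A : Set Ω) :
    ∃ L : H →L[ℝ] ℝ, ∀ h, L h = ∫ ω in A, W h ω ∂P := by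
  let L : H →ₗ[ℝ] ℝ :=
    { toFun := fun h => ∫ ω in A, W h ω ∂P
      map_add' := fun g h => by
        rw [← integral_add (hW.integrable g).integrableOn (hW.integrable h).integrableOn]
        exact integral_congr_ae (ae_restrict_of_ae (hW.add g h))
      map_smul' := fun a h => by
        simp only [RingHom.id_apply, smul_eq_mul]
        rw [← integral_const_mul]
        exact integral_congr_ae (ae_restrict_of_ae (hW.smul a h)) }
  refine ⟨L.mkContinuous 1 fun h => ?_, fun h => rfl⟩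
  rw [one_mul]
  calc ‖∫ ω in A, W h ω ∂P‖ ≤ ∫ ω in A, ‖W h ω‖ ∂P := norm_integral_le_integral_norm _
    _ ≤ ∫ ω, ‖W h ω‖ ∂P :=
        setIntegral_le_integral (hW.integrable h).norm (ae_of_all _ fun ω => norm_nonneg _)
    _ ≤ ‖h‖ := by simpa using hW.integral_abs_le h

/-- Stochastic Fubini. -/
theorem integral_comm' [CompleteSpace H] (hW : IsIso W P) (hY : Measurable (Function.uncurry Y))
    (hk : ∀ᵐ x ∂m, Y x =ᵐ[P] W (k x)) (hi : Integrable k m) :
    ∀ᵐ ω ∂P, W (∫ x, k x ∂m) ω = ∫ x, Y x ω ∂m := by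
  have := hW.prob
  have hI := hW.integrable_prod' hY hk hi.2
  refine Integrable.ae_eq_of_forall_setIntegral_eq _ _ (hW.integrable _) hI.integral_prod_right
    fun A hA _ => ?_
  obtain ⟨L, hL⟩ := hW.exists_setIntegral_clm A
  have hI' : Integrable (Function.uncurry Y) (m.prod (P.restrict A)) :=
    hI.mono_measure (Measure.prod_mono le_rfl Measure.restrict_le_self)
  rw [← hL, ← L.integral_comp_comm hi, ← integral_integral_swap hI']
  refine integral_congr_ae ?_
  filter_upwards [hk] with x hx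
  rw [hL]
  exact integral_congr_ae (ae_restrict_of_ae hx.symm)

theorem lintegral_exp_integral_abs_le_of_pos (hW : IsIso W P)
    (hY : Measurable (Function.uncurry Y)) (hk : ∀ᵐ x ∂m, Y x =ᵐ[P] W (k x)) {w : X → ℝ}
    (hw : Measurable w) (hwi : Integrable w m) (hw0 : ∀ᵐ x ∂m, 0 < w x)
    (hkw : ∀ᵐ x ∂m, ‖k x‖ ≤ w x) (a : ℝ) :
    ∫⁻ ω, ENNReal.ofReal (Real.exp (a * ∫ x, |Y x ω| ∂m)) ∂P ≤
      ENNReal.ofReal (2 * Real.exp (a ^ 2 * (∫ x, w x ∂m) ^ 2 / 2)) := by
  have := hW.prob
  rcases eq_or_ne m 0 with rfl | hm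
  · simp
  set N := ∫ x, w x ∂m with hN
  have hw0' : 0 ≤ᵐ[m] w := hw0.mono fun x hx => hx.le
  have hNpos : 0 < N := by
    rw [hN, integral_pos_iff_support_of_nonneg_ae hw0' hwi, pos_iff_ne_zero]
    intro h0
    apply hm
    rw [← Measure.measure_univ_eq_zero]
    have h1 : ∀ᵐ x ∂m, x ∉ Function.support w := measure_eq_zero_iff_ae_notMem.1 h0
    have h2 : ∀ᵐ x ∂m, False := by
      filter_upwards [hw0, h1] with x h3 h4 using h4 h3.ne'
    simpa using ae_iff.1 h2
  have hd : Measurable fun x => ENNReal.ofReal (w x / N) := (hw.div_const N).ennreal_ofReal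
  let ν : Measure X := m.withDensity fun x => ENNReal.ofReal (w x / N)
  have hν : IsProbabilityMeasure ν := ⟨by
    rw [withDensity_apply _ MeasurableSet.univ, Measure.restrict_univ,
      ← ofReal_integral_eq_lintegral_ofReal (hwi.div_const N)
        (hw0'.mono fun x hx => div_nonneg hx hNpos.le), integral_div, div_self hNpos.ne']
    simp⟩
  have hac : ν ≪ m := withDensity_absolutelyContinuous _ _
  have hfin : HasFiniteIntegral k m := hwi.2.mono' hkw
  have hG : Measurable fun z : X × Ω =>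
      ENNReal.ofReal (Real.exp (a * N / w z.1 * |Y z.1 z.2|)) :=
    ((measurable_const.div (hw.comp measurable_fst)).mul hY.abs).exp.ennreal_ofReal
  calc ∫⁻ ω, ENNReal.ofReal (Real.exp (a * ∫ x, |Y x ω| ∂m)) ∂P
      ≤ ∫⁻ ω, ∫⁻ x, ENNReal.ofReal (Real.exp (a * N / w x * |Y x ω|)) ∂ν ∂P := by
        refine lintegral_mono_ae ?_
        filter_upwards [hW.ae_integrable' hY hk hfin] with ω hω
        have e : ∀ᵐ x ∂m, (ENNReal.ofReal (w x / N)).toReal • (a * N / w x * |Y x ω|) =
            a * |Y x ω| := by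
          filter_upwards [hw0] with x hx
          rw [ENNReal.toReal_ofReal (div_nonneg hx.le hNpos.le), smul_eq_mul]
          field_simp
        have i1 : Integrable (fun x => a * N / w x * |Y x ω|) ν := by
          rw [integrable_withDensity_iff_integrable_smul' hd
            (ae_of_all _ fun x => ENNReal.ofReal_lt_top)]
          exact (hω.abs.const_mul a).congr (e.mono fun x hx => hx.symm)
        refine le_trans (le_of_eq ?_) (ofReal_exp_integral_le i1)
        rw [integral_withDensity_eq_integral_toReal_smul hd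
          (ae_of_all _ fun x => ENNReal.ofReal_lt_top), integral_congr_ae e, integral_const_mul]
    _ = ∫⁻ x, ∫⁻ ω, ENNReal.ofReal (Real.exp (a * N / w x * |Y x ω|)) ∂P ∂ν :=
        (lintegral_lintegral_swap hG.aemeasurable).symm
    _ ≤ ∫⁻ _x, ENNReal.ofReal (2 * Real.exp (a ^ 2 * N ^ 2 / 2)) ∂ν := by
        refine lintegral_mono_ae ?_
        filter_upwards [hac.ae_le hk, hac.ae_le hw0, hac.ae_le hkw] with x h1 h2 h3
        have e : ∫⁻ ω, ENNReal.ofReal (Real.exp (a * N / w x * |Y x ω|)) ∂P =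
            ∫⁻ ω, ENNReal.ofReal (Real.exp (a * N / w x * |W (k x) ω|)) ∂P := by
          refine lintegral_congr_ae ?_
          filter_upwards [h1] with ω hω
          rw [hω]
        rw [e]
        refine (hW.lintegral_exp_abs_le (k x) _).trans (ENNReal.ofReal_le_ofReal ?_)
        have h4 : ‖k x‖ ^ 2 ≤ w x ^ 2 := pow_le_pow_left₀ (norm_nonneg _) h3 2
        have h5 : (a * N / w x) ^ 2 * ‖k x‖ ^ 2 ≤ a ^ 2 * N ^ 2 :=
          calc (a * N / w x) ^ 2 * ‖k x‖ ^ 2 ≤ (a * N / w x) ^ 2 * w x ^ 2 :=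
              mul_le_mul_of_nonneg_left h4 (sq_nonneg _)
            _ = a ^ 2 * N ^ 2 := by field_simp
        exact mul_le_mul_of_nonneg_left (Real.exp_le_exp.2 (by linarith)) (by norm_num)
    _ = _ := by simp

/-- Jensen: exponential moments of the total variation of a stochastic integral; `w` is any
integrable majorant of the norm of the integrand. -/
theorem lintegral_exp_integral_abs_le' (hW : IsIso W P)
    (hY : Measurable (Function.uncurry Y)) (hk : ∀ᵐ x ∂m, Y x =ᵐ[P] W (k x)) {w : X → ℝ}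
    (hw : Measurable w) (hwi : Integrable w m) (hkw : ∀ᵐ x ∂m, ‖k x‖ ≤ w x) (a : ℝ) :
    ∫⁻ ω, ENNReal.ofReal (Real.exp (a * ∫ x, |Y x ω| ∂m)) ∂P ≤
      ENNReal.ofReal (2 * Real.exp (a ^ 2 * (∫ x, w x ∂m) ^ 2 / 2)) := by
  have := hW.prob
  have hS : MeasurableSet {x | w x ≠ 0} := (hw (measurableSet_singleton 0)).compl
  have h0 : ∀ᵐ x ∂m.restrict {x | w x ≠ 0}, 0 < w x := by
    filter_upwards [ae_restrict_of_ae hkw, ae_restrict_mem hS] with x h1 h2
    exact lt_of_le_of_ne ((norm_nonneg _).trans h1) (Ne.symm h2)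
  have h1 := hW.lintegral_exp_integral_abs_le_of_pos (m := m.restrict {x | w x ≠ 0}) hY
    (ae_restrict_of_ae hk) hw hwi.integrableOn h0 (ae_restrict_of_ae hkw) a
  have e1 : ∫ x in {x | w x ≠ 0}, w x ∂m = ∫ x, w x ∂m :=
    setIntegral_eq_integral_of_forall_compl_eq_zero fun x hx => by simpa using hx
  rw [e1] at h1
  refine le_trans (le_of_eq (lintegral_congr_ae ?_)) h1
  have h2 : ∀ᵐ ω ∂P, ∀ᵐ x ∂m, w x = 0 → Y x ω = 0 := by
    refine (Measure.ae_ae_comm (p := fun x ω => w x = 0 → Y x ω = 0) ?_).1 ?_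
    · exact ((measurableSet_eq_fun (hw.comp measurable_fst) measurable_const).imp
        (measurableSet_eq_fun hY measurable_const))
    · filter_upwards [hk, hkw] with x h3 h4
      filter_upwards [h3, hW.zero] with ω h5 h6 h7
      have h8 : k x = 0 := norm_le_zero_iff.1 (h4.trans h7.le)
      rw [h5, h8, h6]
  filter_upwards [h2] with ω hω
  rw [setIntegral_eq_integral_of_ae_compl_eq_zero]
  filter_upwards [hω] with x hx hx'
  rw [hx (by simpa using hx'), abs_zero]

section Joint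
variable [MeasurableSpace H]

omit [SFinite m] [NormedAddCommGroup H] [InnerProductSpace ℝ H] in
theorem _root_.LQ.Gauss.meas_comp (hJ : Measurable (Function.uncurry W)) (hk : Measurable k) :
    Measurable (Function.uncurry fun x ω => W (k x) ω) :=
  hJ.comp (hk.prodMap measurable_id)

theorem lintegral_lintegral_enorm_le (hW : IsIso W P) (hJ : Measurable (Function.uncurry W))
    (hk : Measurable k) : ∫⁻ ω, ∫⁻ x, ‖W (k x) ω‖ₑ ∂m ∂P ≤ ∫⁻ x, ‖k x‖ₑ ∂m :=
  hW.lintegral_lintegral_enorm_le' (meas_comp hJ hk) (ae_of_all _ fun _ => EventuallyEq.rfl)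

theorem ae_integrable (hW : IsIso W P) (hJ : Measurable (Function.uncurry W)) (hk : Measurable k)
    (hi : Integrable k m) : ∀ᵐ ω ∂P, Integrable (fun x => W (k x) ω) m :=
  hW.ae_integrable' (meas_comp hJ hk) (ae_of_all _ fun _ => EventuallyEq.rfl) hi.2

/-- Stochastic Fubini. -/
theorem integral_comm [CompleteSpace H] (hW : IsIso W P) (hJ : Measurable (Function.uncurry W))
    (hk : Measurable k) (hi : Integrable k m) :
    ∀ᵐ ω ∂P, W (∫ x, k x ∂m) ω = ∫ x, W (k x) ω ∂m :=
  hW.integral_comm' (meas_comp hJ hk) (ae_of_all _ fun _ => EventuallyEq.rfl) hi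

/-- Jensen: exponential moments of the total variation of a stochastic integral. -/
theorem lintegral_exp_integral_abs_le [OpensMeasurableSpace H] (hW : IsIso W P)
    (hJ : Measurable (Function.uncurry W)) (hk : Measurable k) (hi : Integrable k m) (a : ℝ) :
    ∫⁻ ω, ENNReal.ofReal (Real.exp (a * ∫ x, |W (k x) ω| ∂m)) ∂P ≤
      ENNReal.ofReal (2 * Real.exp (a ^ 2 * (∫ x, ‖k x‖ ∂m) ^ 2 / 2)) :=
  hW.lintegral_exp_integral_abs_le' (meas_comp hJ hk) (ae_of_all _ fun _ => EventuallyEq.rfl)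
    hk.norm hi.norm (ae_of_all _ fun _ => le_rfl) a

end Joint

end IsIso

end LQ.Gauss
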