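import Pool.Agent.Lib.MP_0d9445_pr.Gauss.Basic

/-! Gaussian toolkit, part 2: laws of families, independence, generated sigma-algebras. -/

open MeasureTheory ProbabilityTheory Filter Topology
open scoped RealInnerProductSpace NNReal ENNReal

namespace LQ.Gauss

variable {H H' Ω Ω' : Type*} [NormedAddCommGroup H] [InnerProductSpace ℝ H]
  [NormedAddCommGroup H'] [InnerProductSpace ℝ H'] {mΩ : MeasurableSpace Ω}
  {mΩ' : MeasurableSpace Ω'} {P : Measure Ω} {P' : Measure Ω'} {W : H → Ω → ℝ}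

omit [NormedAddCommGroup H] [InnerProductSpace ℝ H] in
theorem sig_eq_comap (W : H → Ω → ℝ) (S : Set H) :
    sig W S = MeasurableSpace.comap (fun ω (g : S) => W g ω) MeasurableSpace.pi := by
  rw [MeasurableSpace.comap_process_pi, sig, iSup_subtype']

omit [NormedAddCommGroup H] [InnerProductSpace ℝ H] in
theorem sig_mono (W : H → Ω → ℝ) {S T : Set H} (h : S ⊆ T) : sig W S ≤ sig W T :=
  biSup_mono h

omit [NormedAddCommGroup H] [InnerProductSpace ℝ H] in
theorem measurable_sig (W : H → Ω → ℝ) {S : Set H} {g : H} (hg : g ∈ S) :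
    Measurable[sig W S] (W g) := by
  rw [measurable_iff_comap_le]
  exact le_biSup (f := fun g => MeasurableSpace.comap (W g) inferInstance) hg

omit [NormedAddCommGroup H] [InnerProductSpace ℝ H] in
/-- two maps that agree a.e. on the generators agree a.e. on every `sig W S`-measurable set -/
theorem mem_iff_ae_of_sig {S : Set H} {μ : Measure Ω'} {φ ψ : Ω' → Ω}
    (h : ∀ g ∈ S, ∀ᵐ x ∂μ, W g (φ x) = W g (ψ x)) {A : Set Ω} (hA : MeasurableSet[sig W S] A) :
    ∀ᵐ x ∂μ, φ x ∈ A ↔ ψ x ∈ A := by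
  let M : MeasurableSpace Ω :=
    { MeasurableSet' := fun A => ∀ᵐ x ∂μ, φ x ∈ A ↔ ψ x ∈ A
      measurableSet_empty := by simp
      measurableSet_compl := fun A hA => by
        filter_upwards [hA] with x hx
        simp [hx]
      measurableSet_iUnion := fun f hf => by
        filter_upwards [ae_all_iff.2 hf] with x hx
        simp [hx] }
  have hle : sig W S ≤ M := by
    refine iSup₂_le fun g hg => ?_
    rintro _ ⟨B, _, rfl⟩
    change ∀ᵐ x ∂μ, _
    filter_upwards [h g hg] with x hx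
    simp [hx]
  exact hle A hA

omit [NormedAddCommGroup H] [InnerProductSpace ℝ H] in
/-- two maps that agree a.e. on the generators agree a.e. on every `sig W S`-measurable variable -/
theorem comp_ae_eq_of_sig {S : Set H} {μ : Measure Ω'} {φ ψ : Ω' → Ω}
    (h : ∀ g ∈ S, ∀ᵐ x ∂μ, W g (φ x) = W g (ψ x)) {α : Type*} [MeasurableSpace α]
    [MeasurableSpace.CountablySeparated α] {Y : Ω → α} (hY : Measurable[sig W S] Y) :
    ∀ᵐ x ∂μ, Y (φ x) = Y (ψ x) :=
  Filter.EventuallyEq.of_forall_separating_mem_iff (l := ae μ) (f := fun x => Y (φ x))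
    (g := fun x => Y (ψ x)) MeasurableSet fun _ hU => mem_iff_ae_of_sig h (hY hU)

/-- Freezing lemma. -/
theorem lintegral_freeze {α β : Type*} {mα : MeasurableSpace α} {mβ : MeasurableSpace β}
    [IsProbabilityMeasure P] {X : Ω → α} {Y : Ω → β} (hX : AEMeasurable X P) (hY : AEMeasurable Y P)
    (h : IndepFun X Y P) {F : α × β → ℝ≥0∞} (hF : Measurable F) :
    ∫⁻ ω, F (X ω, Y ω) ∂P = ∫⁻ ω, ∫⁻ ω', F (X ω, Y ω') ∂P ∂P := by
  have h1 := lintegral_map' (μ := P) (g := fun ω => (X ω, Y ω)) hF.aemeasurable (hX.prodMk hY)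
  rw [← h1, h.map_prod_eq_prod_map_map hX hY, lintegral_prod _ hF.aemeasurable,
    lintegral_map' hF.lintegral_prod_right'.aemeasurable hX]
  refine lintegral_congr fun ω => ?_
  exact lintegral_map' (hF.comp measurable_prodMk_left).aemeasurable hY

/-- Freezing lemma, real valued. -/
theorem integral_freeze {α β : Type*} {mα : MeasurableSpace α} {mβ : MeasurableSpace β}
    [IsProbabilityMeasure P] {X : Ω → α} {Y : Ω → β} (hX : AEMeasurable X P) (hY : AEMeasurable Y P)
    (h : IndepFun X Y P) {F : α × β → ℝ} (hF : Measurable F)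
    (hi : Integrable (fun ω => F (X ω, Y ω)) P) :
    ∫ ω, F (X ω, Y ω) ∂P = ∫ ω, ∫ ω', F (X ω, Y ω') ∂P ∂P := by
  have h1 := integral_map (μ := P) (φ := fun ω => (X ω, Y ω)) (hX.prodMk hY)
    hF.aestronglyMeasurable
  have h2 : Integrable F ((P.map X).prod (P.map Y)) := by
    rw [← h.map_prod_eq_prod_map_map hX hY]
    exact (integrable_map_measure hF.aestronglyMeasurable (hX.prodMk hY)).2 hi
  rw [← h1, h.map_prod_eq_prod_map_map hX hY, integral_prod _ h2,
    integral_map hX hF.stronglyMeasurable.integral_prod_right'.aestronglyMeasurable]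
  refine integral_congr_ae (ae_of_all _ fun ω => ?_)
  exact integral_map hY (hF.comp measurable_prodMk_left).aestronglyMeasurable

namespace IsIso

theorem meas_family (hW : IsIso W P) {ι : Type*} (f : ι → H) :
    Measurable fun ω i => W (f i) ω := measurable_pi_lambda _ fun i => hW.meas (f i)

open Classical in
theorem map_dual (hW : IsIso W P) {ι : Type*} [Fintype ι] (f : ι → H) (L : (ι → ℝ) →L[ℝ] ℝ) :
    (P.map fun ω i => W (f i) ω).map L =
      gaussianReal 0 (‖∑ i, (L fun j => if i = j then 1 else 0) • f i‖₊ ^ 2) := by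
  rw [Measure.map_map L.continuous.measurable (hW.meas_family f), ← hW.law]
  refine Measure.map_congr ?_
  filter_upwards [hW.sum_smul Finset.univ (fun i => L fun j => if i = j then 1 else 0) f] with ω hω
  rw [hω]
  have h1 := LinearMap.pi_apply_eq_sum_univ (L : (ι → ℝ) →ₗ[ℝ] ℝ) fun i => W (f i) ω
  simpa [mul_comm] using h1

theorem hasGaussianLaw_family (hW : IsIso W P) {ι : Type*} [Finite ι] (f : ι → H) :
    HasGaussianLaw (fun ω i => W (f i) ω) P := by
  have := Fintype.ofFinite ι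
  exact ⟨isGaussian_of_map_eq_gaussianReal fun L => ⟨0, _, hW.map_dual f L⟩⟩

theorem isGaussianProcess (hW : IsIso W P) {ι : Type*} (f : ι → H) :
    IsGaussianProcess (fun i => W (f i)) P :=
  ⟨fun I => hW.hasGaussianLaw_family fun i : I => f i⟩

theorem _root_.LQ.Gauss.norm_sum_smul_eq {ι : Type*} (s : Finset ι) {f : ι → H} {f' : ι → H'}
    (h : ∀ i j, ⟪f i, f j⟫ = ⟪f' i, f' j⟫) (a : ι → ℝ) :
    ‖∑ i ∈ s, a i • f i‖ = ‖∑ i ∈ s, a i • f' i‖ := by
  rw [← sq_eq_sq₀ (norm_nonneg _) (norm_nonneg _), ← real_inner_self_eq_norm_sq,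
    ← real_inner_self_eq_norm_sq]
  simp only [sum_inner, inner_sum, real_inner_smul_left, real_inner_smul_right, h]

theorem map_eq_of_inner_eq_finite (hW : IsIso W P) {W' : H' → Ω' → ℝ} (hW' : IsIso W' P')
    {ι : Type*} [Finite ι] {f : ι → H} {f' : ι → H'} (h : ∀ i j, ⟪f i, f j⟫ = ⟪f' i, f' j⟫) :
    P.map (fun ω i => W (f i) ω) = P'.map (fun ω i => W' (f' i) ω) := by
  have := Fintype.ofFinite ι
  have := hW.prob
  have := hW'.prob
  refine Measure.ext_of_charFunDual (funext fun L => ?_)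
  rw [charFunDual_eq_charFun_map_one, charFunDual_eq_charFun_map_one, hW.map_dual, hW'.map_dual]
  congr 3
  exact NNReal.eq (norm_sum_smul_eq _ h _)

/-- The law of a family depends only on its Gram matrix. -/
theorem map_eq_of_inner_eq (hW : IsIso W P) {W' : H' → Ω' → ℝ} (hW' : IsIso W' P') {ι : Type*}
    {f : ι → H} {f' : ι → H'} (h : ∀ i j, ⟪f i, f j⟫ = ⟪f' i, f' j⟫) :
    P.map (fun ω i => W (f i) ω) = P'.map (fun ω i => W' (f' i) ω) := by
  have := hW.prob
  have := hW'.prob
  have h1 := isProjectiveLimit_map (P := P) (X := fun i => W (f i))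
    (hW.meas_family f).aemeasurable
  have h2 := isProjectiveLimit_map (P := P') (X := fun i => W' (f' i))
    (hW'.meas_family f').aemeasurable
  have h3 : ∀ I : Finset ι, P.map (fun ω => I.restrict fun i => W (f i) ω) =
      P'.map (fun ω => I.restrict fun i => W' (f' i) ω) := fun I =>
    hW.map_eq_of_inner_eq_finite hW' (f := fun i : I => f i) (f' := fun i : I => f' i)
      fun i j => h i j
  simp_rw [h3] at h1
  exact h1.unique h2

theorem indepFun (hW : IsIso W P) {ι κ : Type*} {f : ι → H} {g : κ → H}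
    (h : ∀ i j, ⟪f i, g j⟫ = 0) :
    IndepFun (fun ω i => W (f i) ω) (fun ω j => W (g j) ω) P := by
  have h1 : IsGaussianProcess (Sum.elim (fun i => W (f i)) fun j => W (g j)) P := by
    convert hW.isGaussianProcess (Sum.elim f g) using 2 with x
    cases x <;> rfl
  exact h1.indepFun_of_covariance_eq_zero (fun i => (hW.meas _).aemeasurable)
    (fun i => (hW.meas _).aemeasurable) fun i j => by rw [hW.cov, h]

theorem iIndepFun (hW : IsIso W P) {T : Type*} {S : T → Type*} {f : (t : T) → S t → H}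
    (h : ∀ s t, s ≠ t → ∀ i j, ⟪f s i, f t j⟫ = 0) :
    iIndepFun (fun t ω i => W (f t i) ω) P :=
  IsGaussianProcess.iIndepFun_of_covariance_eq_zero (X := fun t i => W (f t i))
    (hW.isGaussianProcess fun p : (t : T) × S t => f p.1 p.2)
    (fun _ _ => (hW.meas _).aemeasurable) fun s t hst i j => by rw [hW.cov, h s t hst]

theorem sig_le (hW : IsIso W P) (S : Set H) : sig W S ≤ mΩ :=
  iSup₂_le fun g _ => (hW.meas g).comap_le

theorem indep_sig (hW : IsIso W P) {S T : Set H} (h : ∀ f ∈ S, ∀ g ∈ T, ⟪f, g⟫ = 0) :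
    Indep (sig W S) (sig W T) P := by
  rw [sig_eq_comap, sig_eq_comap, ← IndepFun_iff_Indep]
  exact hW.indepFun (f := fun g : S => (g : H)) (g := fun g : T => (g : H))
    fun i j => h i i.2 j j.2

theorem iIndep_sig (hW : IsIso W P) {T : Type*} {S : T → Set H}
    (h : ∀ s t, s ≠ t → ∀ f ∈ S s, ∀ g ∈ S t, ⟪f, g⟫ = 0) :
    iIndep (fun t => sig W (S t)) P := by
  have h1 := hW.iIndepFun (S := fun t => S t) (f := fun t (g : S t) => (g : H))
    fun s t hst i j => h s t hst i i.2 j j.2
  rw [iIndepFun_iff_iIndep] at h1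
  simp_rw [sig_eq_comap]
  exact h1

/-- variables measurable for orthogonal parts are independent -/
theorem indepFun_of_sig (hW : IsIso W P) {S T : Set H} (h : ∀ f ∈ S, ∀ g ∈ T, ⟪f, g⟫ = 0)
    {α β : Type*} {mα : MeasurableSpace α} {mβ : MeasurableSpace β} {X : Ω → α} {Y : Ω → β}
    (hX : Measurable[sig W S] X) (hY : Measurable[sig W T] Y) : IndepFun X Y P := by
  rw [IndepFun_iff_Indep]
  exact indep_of_indep_of_le (hW.indep_sig h) hX.comap_le hY.comap_le

theorem iIndepFun_of_sig (hW : IsIso W P) {T : Type*} {S : T → Set H}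
    (h : ∀ s t, s ≠ t → ∀ f ∈ S s, ∀ g ∈ S t, ⟪f, g⟫ = 0) {α : T → Type*}
    {mα : ∀ t, MeasurableSpace (α t)} {X : ∀ t, Ω → α t}
    (hX : ∀ t, Measurable[sig W (S t)] (X t)) : ProbabilityTheory.iIndepFun X P := by
  rw [iIndepFun_iff_iIndep]
  exact iIndep_of_iIndep_of_le (hW.iIndep_sig h) fun t => (hX t).comap_le

theorem exists_sig_version_span (hW : IsIso W P) {S : Set H} {h : H}
    (hh : h ∈ Submodule.span ℝ S) : ∃ Y : Ω → ℝ, Measurable[sig W S] Y ∧ Y =ᵐ[P] W h := by
  induction hh using Submodule.span_induction with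
  | mem g hg => exact ⟨W g, measurable_sig W hg, EventuallyEq.rfl⟩
  | zero =>
    refine ⟨fun _ => 0, measurable_const, ?_⟩
    filter_upwards [hW.zero] with ω hω using hω.symm
  | add f g _ _ hf hg =>
    obtain ⟨Y, hY, eY⟩ := hf
    obtain ⟨Z, hZ, eZ⟩ := hg
    refine ⟨fun ω => Y ω + Z ω, hY.add hZ, ?_⟩
    filter_upwards [eY, eZ, hW.add f g] with ω h1 h2 h3
    rw [h1, h2, h3]
  | smul a g _ hg =>
    obtain ⟨Y, hY, eY⟩ := hg
    refine ⟨fun ω => a * Y ω, hY.const_mul a, ?_⟩
    filter_upwards [eY, hW.smul a g] with ω h1 h2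
    rw [h1, h2]

/-- `W h` has a `sig W S`-measurable version when `h` is in the closed span of `S`. -/
theorem exists_sig_version (hW : IsIso W P) {S : Set H} {h : H}
    (hh : h ∈ (Submodule.span ℝ S).topologicalClosure) :
    ∃ Y : Ω → ℝ, Measurable[sig W S] Y ∧ Y =ᵐ[P] W h := by
  obtain ⟨f, hf, hl⟩ := mem_closure_iff_seq_limit.1 hh
  choose Y hY eY using fun n => hW.exists_sig_version_span (hf n)
  obtain ⟨ns, _, h1⟩ := (hW.tendstoInMeasure hl).exists_seq_tendsto_ae
  refine ⟨fun ω => limUnder atTop fun n => Y (ns n) ω, ?_, ?_⟩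
  · let _ : MeasurableSpace Ω := sig W S
    exact (StronglyMeasurable.limUnder (l := atTop) (f := fun n => Y (ns n))
      fun n => (hY (ns n)).stronglyMeasurable).measurable
  · filter_upwards [h1, ae_all_iff.2 eY] with ω h1 h2
    simp_rw [h2]
    exact h1.limUnder_eq

/-- orthonormal family: iid standard Gaussians -/
theorem map_orthonormal (hW : IsIso W P) {ι : Type*} {e : ι → H} (he : Orthonormal ℝ e) :
    P.map (fun ω i => W (e i) ω) = Measure.infinitePi fun _ : ι => gaussianReal 0 1 := by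
  have h1 : ProbabilityTheory.iIndepFun (fun i => W (e i)) P := by
    refine hW.iIndepFun_of_sig (S := fun i => {e i}) ?_ fun i => measurable_sig W rfl
    rintro s t hst _ rfl _ rfl
    exact he.2 hst
  rw [h1.map_fun_eq_infinitePi_map fun i => hW.meas _]
  congr 1
  ext1 i
  rw [hW.law]
  have : ‖e i‖₊ = 1 := NNReal.eq (he.1 i)
  simp [this]

end IsIso

end LQ.Gauss
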