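import Pool.Agent.Lib.MP_0d9445_pr.Gauss.Canon

/-! Gaussian toolkit, part 6: versions, every centred Gaussian process is carried by an isonormal
process, and the Cameron-Martin theorem for Gaussian families (Riesz). -/

open MeasureTheory ProbabilityTheory Filter Topology
open scoped RealInnerProductSpace NNReal ENNReal

namespace LQ.Gauss

variable {H H' Ω Ω' : Type*} [NormedAddCommGroup H] [InnerProductSpace ℝ H]
  [NormedAddCommGroup H'] [InnerProductSpace ℝ H'] {mΩ : MeasurableSpace Ω}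
  {mΩ' : MeasurableSpace Ω'} {P : Measure Ω} {P' : Measure Ω'} {W : H → Ω → ℝ}

/-- Riesz: a function dominated by the norm on finite combinations is an inner product. -/
theorem exists_inner_eq_of_bound [CompleteSpace H] {ι : Type*} (k : ι → H) (u : ι → ℝ) {C : ℝ}
    (hC : 0 ≤ C)
    (h : ∀ (s : Finset ι) (a : ι → ℝ), |∑ i ∈ s, a i * u i| ≤ C * ‖∑ i ∈ s, a i • k i‖) :
    ∃ v : H, ‖v‖ ≤ C ∧ v ∈ (Submodule.span ℝ (Set.range k)).topologicalClosure ∧
      ∀ i, ⟪v, k i⟫ = u i := by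
  let T : (ι →₀ ℝ) →ₗ[ℝ] H := Finsupp.linearCombination ℝ k
  let U : (ι →₀ ℝ) →ₗ[ℝ] ℝ := Finsupp.linearCombination ℝ u
  have hTU : ∀ a, |U a| ≤ C * ‖T a‖ := fun a => by
    simpa [T, U, Finsupp.linearCombination_apply, Finsupp.sum] using h a.support a
  have hker : LinearMap.ker T ≤ LinearMap.ker U := fun a ha => by
    have h1 := hTU a
    rw [LinearMap.mem_ker.1 ha, norm_zero, mul_zero] at h1
    exact abs_nonpos_iff.1 h1
  let g : LinearMap.range T →ₗ[ℝ] ℝ :=
    ((LinearMap.ker T).liftQ U hker).comp T.quotKerEquivRange.symm.toLinearMap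
  have hg : ∀ a, g ⟨T a, LinearMap.mem_range_self T a⟩ = U a := fun a => by
    simp [g, LinearMap.quotKerEquivRange_symm_apply_image]
  have hgb : ∀ y, ‖g y‖ ≤ C * ‖y‖ := by
    rintro ⟨_, a, rfl⟩
    rw [hg a]
    exact hTU a
  obtain ⟨L, hL, hLn⟩ := exists_extension_norm_eq (LinearMap.range T) (g.mkContinuous C hgb)
  let K := (Submodule.span ℝ (Set.range k)).topologicalClosure
  have : CompleteSpace K := (Submodule.isClosed_topologicalClosure _).completeSpace_coe
  let v₀ : H := (InnerProductSpace.toDual ℝ H).symm L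
  refine ⟨K.starProjection v₀, ?_, K.starProjection_apply_mem _, fun i => ?_⟩
  · refine (K.norm_starProjection_apply_le v₀).trans ?_
    rw [LinearIsometryEquiv.norm_map, hLn]
    exact LinearMap.mkContinuous_norm_le _ hC _
  · have hk : k i ∈ K := Submodule.le_topologicalClosure _ (Submodule.subset_span ⟨i, rfl⟩)
    rw [Submodule.inner_starProjection_left_eq_right, Submodule.starProjection_eq_self_iff.2 hk,
      InnerProductSpace.toDual_symm_apply]
    have h1 : k i = T (Finsupp.single i 1) := by simp [T]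
    have h2 := hL ⟨T (Finsupp.single i 1), LinearMap.mem_range_self T _⟩
    rw [LinearMap.mkContinuous_apply, hg] at h2
    rw [h1, h2]
    simp [U]

namespace IsIso

variable {ι : Type*} {f : ι → H} {X : ι → Ω → ℝ}

/-! ### versions -/

theorem map_version (hW : IsIso W P) (hm : ∀ i, Measurable (X i)) (hX : ∀ i, X i =ᵐ[P] W (f i)) :
    P.map (fun ω i => X i ω) = P.map (fun ω i => W (f i) ω) := by
  have := hW.prob
  exact map_eq_of_forall_ae_eq (measurable_pi_lambda _ hm).aemeasurable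
    (hW.meas_family f).aemeasurable hX

theorem version_isGaussianProcess (hW : IsIso W P) (hX : ∀ i, X i =ᵐ[P] W (f i)) :
    IsGaussianProcess X P :=
  (hW.isGaussianProcess f).congr fun i => (hX i).symm

theorem version_cov (hW : IsIso W P) {g h : H} {Y Z : Ω → ℝ} (hY : Y =ᵐ[P] W g)
    (hZ : Z =ᵐ[P] W h) : cov[Y, Z; P] = ⟪g, h⟫ := by
  rw [← hW.cov g h, covariance, covariance, integral_congr_ae hY, integral_congr_ae hZ]
  refine integral_congr_ae ?_
  filter_upwards [hY, hZ] with ω h1 h2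
  rw [h1, h2]

theorem version_map_eq (hW : IsIso W P) {W' : H' → Ω' → ℝ} (hW' : IsIso W' P') {f' : ι → H'}
    {X' : ι → Ω' → ℝ} (hm : ∀ i, Measurable (X i)) (hX : ∀ i, X i =ᵐ[P] W (f i))
    (hm' : ∀ i, Measurable (X' i)) (hX' : ∀ i, X' i =ᵐ[P'] W' (f' i))
    (h : ∀ i j, ⟪f i, f j⟫ = ⟪f' i, f' j⟫) :
    P.map (fun ω i => X i ω) = P'.map (fun ω i => X' i ω) := by
  rw [hW.map_version hm hX, hW'.map_version hm' hX', hW.map_eq_of_inner_eq hW' h]

theorem version_iIndepFun (hW : IsIso W P) {T : Type*} {S : T → Type*} {f : (t : T) → S t → H}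
    {X : (t : T) → S t → Ω → ℝ} (hX : ∀ t i, X t i =ᵐ[P] W (f t i))
    (h : ∀ s t, s ≠ t → ∀ i j, ⟪f s i, f t j⟫ = 0) :
    ProbabilityTheory.iIndepFun (fun t ω i => X t i ω) P :=
  IsGaussianProcess.iIndepFun_of_covariance_eq_zero
    (hW.version_isGaussianProcess (f := fun p : (t : T) × S t => f p.1 p.2) fun p => hX p.1 p.2)
    (fun t i => (hW.meas _).aemeasurable.congr (hX t i).symm)
    fun s t hst i j => by rw [hW.version_cov (hX s i) (hX t j), h s t hst]

theorem version_indepFun (hW : IsIso W P) {κ : Type*} {g : κ → H} {Y : κ → Ω → ℝ}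
    (hX : ∀ i, X i =ᵐ[P] W (f i)) (hY : ∀ j, Y j =ᵐ[P] W (g j)) (h : ∀ i j, ⟪f i, g j⟫ = 0) :
    IndepFun (fun ω i => X i ω) (fun ω j => Y j ω) P := by
  have h1 : IsGaussianProcess (Sum.elim X Y) P :=
    hW.version_isGaussianProcess (f := Sum.elim f g) fun x => by
      cases x with
      | inl i => exact hX i
      | inr j => exact hY j
  exact h1.indepFun_of_covariance_eq_zero
    (fun i => (hW.meas _).aemeasurable.congr (hX i).symm)
    (fun j => (hW.meas _).aemeasurable.congr (hY j).symm)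
    fun i j => by rw [hW.version_cov (hX i) (hY j), h]

/-- Cameron-Martin for a version of a family. -/
theorem version_map_tilt (hW : IsIso W P) (hm : ∀ i, Measurable (X i))
    (hX : ∀ i, X i =ᵐ[P] W (f i)) (v : H) :
    (tilt W v P).map (fun ω i => X i ω) = P.map (fun ω i => X i ω + ⟪v, f i⟫) := by
  have := hW.prob
  have := hW.tilt_prob v
  have h1 : (tilt W v P).map (fun ω i => X i ω) = (tilt W v P).map (fun ω i => W (f i) ω) :=
    map_eq_of_forall_ae_eq (measurable_pi_lambda _ hm).aemeasurable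
      (hW.meas_family f).aemeasurable fun i => (hW.tilt_ac v).1.ae_eq (hX i)
  rw [h1, hW.map_tilt]
  refine map_eq_of_forall_ae_eq (X := fun i ω => W (f i) ω + ⟪v, f i⟫)
    (Y := fun i ω => X i ω + ⟪v, f i⟫)
    (measurable_pi_lambda _ fun i => (hW.meas _).add_const _).aemeasurable
    (measurable_pi_lambda _ fun i => (hm i).add_const _).aemeasurable fun i => ?_
  filter_upwards [hX i] with ω hω
  rw [hω]

end IsIso

/-- The closed span in `L²(P)` of a centred Gaussian process is an isonormal process. -/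
theorem exists_isIso_of_isGaussianProcess {ι : Type*} {X : ι → Ω → ℝ}
    (hX : IsGaussianProcess X P) (h0 : ∀ i, ∫ ω, X i ω ∂P = 0) :
    ∃ (K : Submodule ℝ (Lp ℝ 2 P)) (k : ι → K), IsClosed (K : Set (Lp ℝ 2 P)) ∧
      IsIso (fun (f : K) ω => (f : Lp ℝ 2 P) ω) P ∧ ∀ i, X i =ᵐ[P] ((k i : Lp ℝ 2 P) : Ω → ℝ) := by
  classical
  have := hX.isProbabilityMeasure
  have h2 : ∀ i, MemLp (X i) 2 P := fun i => (hX.hasGaussianLaw_eval i).memLp_two
  let e : ι → Lp ℝ 2 P := fun i => (h2 i).toLp (X i)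
  have he : ∀ i, (e i : Ω → ℝ) =ᵐ[P] X i := fun i => (h2 i).coeFn_toLp
  have hnorm : ∀ f : Lp ℝ 2 P, ∫ ω, f ω ^ 2 ∂P = ‖f‖ ^ 2 := fun f => by
    rw [← real_inner_self_eq_norm_sq, L2.inner_def]
    refine integral_congr_ae (ae_of_all _ fun ω => ?_)
    simp [sq]
  have hlaw : ∀ f : Lp ℝ 2 P, HasGaussianLaw f P → ∫ ω, f ω ∂P = 0 →
      P.map f = gaussianReal 0 (‖f‖₊ ^ 2) := fun f hf hf0 => by
    rw [hf.map_eq_gaussianReal, hf0, variance_of_integral_eq_zero hf.aemeasurable hf0, hnorm]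
    congr 1
    exact NNReal.eq (by simp)
  have hspan : ∀ f ∈ Submodule.span ℝ (Set.range e), P.map f = gaussianReal 0 (‖f‖₊ ^ 2) := by
    intro f hf
    obtain ⟨c, rfl⟩ := Finsupp.mem_span_range_iff_exists_finsupp.1 hf
    have h3 : ((c.sum fun i a => a • e i : Lp ℝ 2 P) : Ω → ℝ) =ᵐ[P]
        fun ω => ∑ i ∈ c.support, c i • X i ω := by
      have h4 : ∀ᵐ ω ∂P, ∀ i ∈ c.support, (c i • e i : Lp ℝ 2 P) ω = c i • X i ω :=
        (Filter.eventually_all_finset _).2 fun i _ => by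
          filter_upwards [Lp.coeFn_smul (c i) (e i), he i] with ω h5 h6
          rw [h5, Pi.smul_apply, h6]
      filter_upwards [Lp.coeFn_finsetSum c.support fun i => c i • e i, h4] with ω h5 h6
      rw [Finsupp.sum, h5, Finset.sum_apply]
      exact Finset.sum_congr rfl h6
    refine hlaw _ (((hX.smul c).hasGaussianLaw_fun_sum (I := c.support)).congr h3.symm) ?_
    rw [integral_congr_ae h3, integral_finsetSum (f := fun i ω => c i • X i ω) _ fun i _ =>
      (hX.hasGaussianLaw_eval i).integrable.smul (c i)]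
    simp [integral_const_mul, h0]
  refine ⟨(Submodule.span ℝ (Set.range e)).topologicalClosure,
    fun i => ⟨e i, Submodule.le_topologicalClosure _ (Submodule.subset_span ⟨i, rfl⟩)⟩,
    Submodule.isClosed_topologicalClosure _, ⟨fun f => (Lp.stronglyMeasurable _).measurable,
      fun f => ?_, fun f g => Lp.coeFn_add _ _, fun a f => Lp.coeFn_smul _ _⟩,
    fun i => (he i).symm⟩
  obtain ⟨u, hu, hl⟩ := mem_closure_iff_seq_limit.1 f.2
  obtain ⟨ns, hns, h1⟩ := (tendstoInMeasure_of_tendsto_Lp hl).exists_seq_tendsto_ae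
  refine map_eq_gaussianReal_of_tendsto (X := fun n => u (ns n)) (v := fun n => ‖u (ns n)‖₊ ^ 2)
    (fun n => ⟨(Lp.aestronglyMeasurable _).aemeasurable, hspan _ (hu _)⟩)
    (Lp.aestronglyMeasurable _).aemeasurable h1 ?_
  simpa using (hl.comp hns.tendsto_atTop).norm.pow 2

/-- Cameron-Martin theorem for a centred Gaussian family: a shift `u` dominated by the standard
deviation is realised by the density `exp (Z - σ²/2)`, `Z` centred Gaussian of variance
`σ² ≤ C²`, jointly Gaussian with the family, `E Z X_i = u_i`. -/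
theorem exists_cameronMartin {ι : Type*} {X : ι → Ω → ℝ} (hX : IsGaussianProcess X P)
    (hm : ∀ i, Measurable (X i)) (h0 : ∀ i, ∫ ω, X i ω ∂P = 0) (u : ι → ℝ) {C : ℝ} (hC : 0 ≤ C)
    (h : ∀ (s : Finset ι) (a : ι → ℝ),
      (∑ i ∈ s, a i * u i) ^ 2 ≤ C ^ 2 * ∫ ω, (∑ i ∈ s, a i * X i ω) ^ 2 ∂P) :
    ∃ (K : Submodule ℝ (Lp ℝ 2 P)) (k : ι → K) (v : K),
      IsIso (fun (f : K) ω => (f : Lp ℝ 2 P) ω) P ∧
      (∀ i, X i =ᵐ[P] ((k i : Lp ℝ 2 P) : Ω → ℝ)) ∧ ‖v‖ ≤ C ∧ (∀ i, ⟪v, k i⟫ = u i) ∧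
      (tilt (fun (f : K) ω => (f : Lp ℝ 2 P) ω) v P).map (fun ω i => X i ω) =
        P.map (fun ω i => X i ω + u i) := by
  obtain ⟨K, k, hK, hW, hk⟩ := exists_isIso_of_isGaussianProcess hX h0
  have : CompleteSpace K := hK.completeSpace_coe
  obtain ⟨v, hv, -, hvk⟩ := exists_inner_eq_of_bound k u hC fun s a => by
    have h1 : ∫ ω, (∑ i ∈ s, a i * X i ω) ^ 2 ∂P = ‖∑ i ∈ s, a i • k i‖ ^ 2 := by
      rw [← hW.integral_sq]
      refine integral_congr_ae ?_
      have h2 : ∀ᵐ ω ∂P, ∀ i ∈ s, X i ω = (k i : Lp ℝ 2 P) ω :=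
        (Filter.eventually_all_finset _).2 fun i _ => hk i
      filter_upwards [hW.sum_smul s a k, h2] with ω h3 h4
      rw [h3]
      congr 1
      exact Finset.sum_congr rfl fun i hi => by rw [h4 i hi]
    have h5 := h s a
    rw [h1, ← mul_pow] at h5
    exact abs_le_of_sq_le_sq' h5 (by positivity) |> abs_le.2
  refine ⟨K, k, v, hW, hk, hv, hvk, ?_⟩
  rw [hW.version_map_tilt hm hk v]
  simp_rw [hvk]

/-- Cost of a Cameron-Martin shift of a Gaussian family: equivalence of the laws, total variation,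
Hoelder bound. -/
theorem cameronMartin_cost {ι : Type*} {X : ι → Ω → ℝ} (hX : IsGaussianProcess X P)
    (hm : ∀ i, Measurable (X i)) (h0 : ∀ i, ∫ ω, X i ω ∂P = 0) (u : ι → ℝ) {C : ℝ} (hC : 0 ≤ C)
    (h : ∀ (s : Finset ι) (a : ι → ℝ),
      (∑ i ∈ s, a i * u i) ^ 2 ≤ C ^ 2 * ∫ ω, (∑ i ∈ s, a i * X i ω) ^ 2 ∂P) :
    (P.map (fun ω i => X i ω + u i) ≪ P.map (fun ω i => X i ω)) ∧
    (P.map (fun ω i => X i ω) ≪ P.map (fun ω i => X i ω + u i)) ∧
    (∀ (F : (ι → ℝ) → ℝ) (M : ℝ), Measurable F → (∀ x, |F x| ≤ M) →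
      |∫ ω, F (fun i => X i ω + u i) ∂P - ∫ ω, F (fun i => X i ω) ∂P| ≤ 2 * M * C) ∧
    (∀ (F : (ι → ℝ) → ℝ≥0∞) (p q : ℝ), Measurable F → p.HolderConjugate q →
      ∫⁻ ω, F (fun i => X i ω + u i) ∂P ≤ ENNReal.ofReal (Real.exp ((q - 1) * C ^ 2 / 2)) *
        (∫⁻ ω, F (fun i => X i ω) ^ p ∂P) ^ (1 / p)) := by
  obtain ⟨K, k, v, hW, -, hv, -, hmap⟩ := exists_cameronMartin hX hm h0 u hC h
  have := hW.prob
  have m1 : Measurable fun ω i => X i ω := measurable_pi_lambda _ hm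
  have m2 : Measurable fun ω i => X i ω + u i :=
    measurable_pi_lambda _ fun i => (hm i).add_const _
  refine ⟨hmap ▸ (hW.tilt_ac v).1.map m1, hmap ▸ (hW.tilt_ac v).2.map m1,
    fun F M hF hM => ?_, fun F p q hF hpq => ?_⟩
  · have hM0 : 0 ≤ M := (abs_nonneg _).trans (hM 0)
    rw [← integral_map m2.aemeasurable hF.aestronglyMeasurable, ← hmap,
      integral_map m1.aemeasurable hF.aestronglyMeasurable]
    refine (hW.abs_integral_tilt_sub_le v (F := fun ω => F fun i => X i ω)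
      (hF.comp m1).aestronglyMeasurable (ae_of_all _ fun ω => hM _)).trans ?_
    gcongr
  · rw [← lintegral_map hF m2, ← hmap, lintegral_map hF m1]
    refine (hW.lintegral_tilt_le v (F := fun ω => F fun i => X i ω)
      (hF.comp m1).aemeasurable hpq).trans ?_
    have hq : 0 ≤ q - 1 := hpq.symm.sub_one_pos.le
    gcongr

end LQ.Gauss
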