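import Mathlib

/-! Gaussian toolkit, part 1: isonormal processes, moments, tails, stability. -/

open MeasureTheory ProbabilityTheory Filter Topology
open scoped RealInnerProductSpace NNReal ENNReal

namespace LQ.Gauss

variable {H H' Ω Ω' : Type*} [NormedAddCommGroup H] [InnerProductSpace ℝ H]
  [NormedAddCommGroup H'] [InnerProductSpace ℝ H'] {mΩ : MeasurableSpace Ω}
  {mΩ' : MeasurableSpace Ω'} {P : Measure Ω} {P' : Measure Ω'} {W : H → Ω → ℝ}

/-- An isonormal Gaussian process indexed by `H`. -/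
structure IsIso (W : H → Ω → ℝ) (P : Measure Ω) : Prop where
  meas : ∀ h, Measurable (W h)
  law : ∀ h, P.map (W h) = gaussianReal 0 (‖h‖₊ ^ 2)
  add : ∀ g h, ∀ᵐ ω ∂P, W (g + h) ω = W g ω + W h ω
  smul : ∀ (a : ℝ) h, ∀ᵐ ω ∂P, W (a • h) ω = a * W h ω

/-- The Cameron-Martin density `exp (W v - |v|^2/2)`. -/
noncomputable def dens (W : H → Ω → ℝ) (v : H) (ω : Ω) : ℝ := Real.exp (W v ω - ‖v‖ ^ 2 / 2)

/-- The tilted measure. -/
noncomputable def tilt (W : H → Ω → ℝ) (v : H) (P : Measure Ω) : Measure Ω :=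
  P.withDensity fun ω => ENNReal.ofReal (dens W v ω)

/-- The sigma-algebra generated by `W g`, `g ∈ S`. -/
@[reducible] def sig (W : H → Ω → ℝ) (S : Set H) : MeasurableSpace Ω :=
  ⨆ g ∈ S, MeasurableSpace.comap (W g) inferInstance

/-- A real variable with the Gaussian Laplace transform is Gaussian. -/
theorem map_eq_gaussianReal_of_mgf [IsProbabilityMeasure P] {X : Ω → ℝ} (hX : AEMeasurable X P)
    {v : ℝ≥0} (h : ∀ t : ℝ, ∫ ω, Real.exp (t * X ω) ∂P = Real.exp (v * t ^ 2 / 2)) :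
    P.map X = gaussianReal 0 v := by
  have h1 : mgf id (gaussianReal 0 v) = mgf X P := by
    rw [mgf_id_gaussianReal]
    ext t
    simp [mgf, h t]
  have h2 := eqOn_complexMGF_of_mgf h1
  rw [integrableExpSet_id_gaussianReal] at h2
  have h3 : complexMGF id (gaussianReal 0 v) = complexMGF X P := by
    ext z
    exact h2 (by simp)
  have h4 := Measure.ext_of_complexMGF_eq aemeasurable_id hX h3
  rw [← h4, Measure.map_id]

namespace IsIso

theorem prob (hW : IsIso W P) : IsProbabilityMeasure P := by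
  have h : IsProbabilityMeasure (P.map (W 0)) := by rw [hW.law]; infer_instance
  exact P.isProbabilityMeasure_of_map (W 0)

theorem zero (hW : IsIso W P) : ∀ᵐ ω ∂P, W 0 ω = 0 := by
  filter_upwards [hW.smul 0 0] with ω h
  simpa using h

theorem neg (hW : IsIso W P) (h : H) : ∀ᵐ ω ∂P, W (-h) ω = -W h ω := by
  filter_upwards [hW.smul (-1) h] with ω h
  simpa using h

theorem sub (hW : IsIso W P) (g h : H) : ∀ᵐ ω ∂P, W (g - h) ω = W g ω - W h ω := by
  filter_upwards [hW.add g (-h), hW.neg h] with ω h1 h2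
  rw [sub_eq_add_neg, h1, h2, sub_eq_add_neg]

theorem sum (hW : IsIso W P) {ι : Type*} (s : Finset ι) (f : ι → H) :
    ∀ᵐ ω ∂P, W (∑ i ∈ s, f i) ω = ∑ i ∈ s, W (f i) ω := by
  classical
  induction s using Finset.induction_on with
  | empty => simpa using hW.zero
  | insert a s ha ih =>
    filter_upwards [ih, hW.add (f a) (∑ i ∈ s, f i)] with ω h1 h2
    rw [Finset.sum_insert ha, Finset.sum_insert ha, h2, h1]

theorem sum_smul (hW : IsIso W P) {ι : Type*} (s : Finset ι) (a : ι → ℝ) (f : ι → H) :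
    ∀ᵐ ω ∂P, W (∑ i ∈ s, a i • f i) ω = ∑ i ∈ s, a i * W (f i) ω := by
  have h2 : ∀ᵐ ω ∂P, ∀ i ∈ s, W (a i • f i) ω = a i * W (f i) ω :=
    (Filter.eventually_all_finset s).2 fun i _ => hW.smul (a i) (f i)
  filter_upwards [hW.sum s fun i => a i • f i, h2] with ω h1 h2
  rw [h1]
  exact Finset.sum_congr rfl h2

theorem hasLaw (hW : IsIso W P) (h : H) : HasLaw (W h) (gaussianReal 0 (‖h‖₊ ^ 2)) P :=
  ⟨(hW.meas h).aemeasurable, hW.law h⟩

theorem hasGaussianLaw (hW : IsIso W P) (h : H) : HasGaussianLaw (W h) P :=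
  (hW.hasLaw h).hasGaussianLaw

theorem memLp (hW : IsIso W P) (h : H) {p : ℝ≥0∞} (hp : p ≠ ∞) : MemLp (W h) p P :=
  (hW.hasGaussianLaw h).memLp hp

theorem integrable (hW : IsIso W P) (h : H) : Integrable (W h) P :=
  (hW.hasGaussianLaw h).integrable

theorem integral_eq_zero (hW : IsIso W P) (h : H) : ∫ ω, W h ω ∂P = 0 := by
  rw [(hW.hasLaw h).integral_eq, integral_id_gaussianReal]

theorem variance (hW : IsIso W P) (h : H) : Var[W h; P] = ‖h‖ ^ 2 := by
  rw [(hW.hasLaw h).variance_eq, variance_id_gaussianReal]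
  simp

theorem integral_sq (hW : IsIso W P) (h : H) : ∫ ω, W h ω ^ 2 ∂P = ‖h‖ ^ 2 := by
  rw [← hW.variance h,
    variance_of_integral_eq_zero (hW.meas h).aemeasurable (hW.integral_eq_zero h)]

theorem integrable_mul (hW : IsIso W P) (g h : H) :
    Integrable (fun ω => W g ω * W h ω) P :=
  (hW.memLp g (p := 2) (by norm_num)).integrable_mul (hW.memLp h (p := 2) (by norm_num))

theorem integrable_sq (hW : IsIso W P) (h : H) : Integrable (fun ω => W h ω ^ 2) P := by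
  simpa [sq] using hW.integrable_mul h h

theorem integral_mul (hW : IsIso W P) (g h : H) : ∫ ω, W g ω * W h ω ∂P = ⟪g, h⟫ := by
  have h1 : ∫ ω, W (g + h) ω ^ 2 ∂P =
      ∫ ω, (W g ω ^ 2 + 2 * (W g ω * W h ω) + W h ω ^ 2) ∂P := by
    refine integral_congr_ae ?_
    filter_upwards [hW.add g h] with ω hω
    rw [hω]; ring
  have i1 : Integrable (fun ω => W g ω ^ 2 + 2 * (W g ω * W h ω)) P :=
    (hW.integrable_sq g).add ((hW.integrable_mul g h).const_mul 2)
  rw [integral_add i1 (hW.integrable_sq h),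
    integral_add (hW.integrable_sq g) ((hW.integrable_mul g h).const_mul 2), integral_const_mul,
    hW.integral_sq, hW.integral_sq, hW.integral_sq, norm_add_sq_real] at h1
  linarith

theorem cov (hW : IsIso W P) (g h : H) : cov[W g, W h; P] = ⟪g, h⟫ := by
  rw [covariance, hW.integral_eq_zero, hW.integral_eq_zero]
  simpa using hW.integral_mul g h

theorem eLpNorm_two (hW : IsIso W P) (h : H) : eLpNorm (W h) 2 P = ‖h‖ₑ := by
  rw [(hW.memLp h (p := 2) (by norm_num)).eLpNorm_eq_integral_rpow_norm (by norm_num)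
    (by norm_num)]
  have h1 : ∫ ω, ‖W h ω‖ ^ (2 : ℝ≥0∞).toReal ∂P = ‖h‖ ^ 2 := by
    rw [← hW.integral_sq h]
    refine integral_congr_ae (ae_of_all _ fun ω => ?_)
    simp
  rw [h1, ← ofReal_norm]
  congr 1
  have h2 : ((2 : ℝ≥0∞).toReal)⁻¹ = ((2 : ℕ) : ℝ)⁻¹ := by simp
  rw [h2, Real.pow_rpow_inv_natCast (norm_nonneg _) two_ne_zero]

theorem lintegral_enorm_le (hW : IsIso W P) (h : H) : ∫⁻ ω, ‖W h ω‖ₑ ∂P ≤ ‖h‖ₑ := by
  have := hW.prob
  rw [← hW.eLpNorm_two h, ← eLpNorm_one_eq_lintegral_enorm]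
  exact eLpNorm_le_eLpNorm_of_exponent_le (by norm_num) (hW.meas h).aestronglyMeasurable

theorem integral_abs_le (hW : IsIso W P) (h : H) : ∫ ω, |W h ω| ∂P ≤ ‖h‖ := by
  have h1 := hW.lintegral_enorm_le h
  rw [← ofReal_integral_norm_eq_lintegral_enorm (hW.integrable h), ← ofReal_norm,
    ENNReal.ofReal_le_ofReal_iff (norm_nonneg _)] at h1
  simpa using h1

theorem integrable_exp (hW : IsIso W P) (h : H) (a : ℝ) :
    Integrable (fun ω => Real.exp (a * W h ω)) P := by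
  have h1 := integrable_exp_mul_gaussianReal (μ := 0) (v := ‖h‖₊ ^ 2) a
  rw [← hW.law h] at h1
  exact h1.comp_measurable (hW.meas h)

theorem integral_exp (hW : IsIso W P) (h : H) (a : ℝ) :
    ∫ ω, Real.exp (a * W h ω) ∂P = Real.exp (a ^ 2 * ‖h‖ ^ 2 / 2) := by
  have h1 := mgf_gaussianReal (hW.law h) a
  rw [mgf] at h1
  rw [h1]
  congr 1
  simp [mul_comm]

theorem lintegral_exp (hW : IsIso W P) (h : H) (a : ℝ) :
    ∫⁻ ω, ENNReal.ofReal (Real.exp (a * W h ω)) ∂P =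
      ENNReal.ofReal (Real.exp (a ^ 2 * ‖h‖ ^ 2 / 2)) := by
  rw [← hW.integral_exp h a, ofReal_integral_eq_lintegral_ofReal (hW.integrable_exp h a)
    (ae_of_all _ fun ω => (Real.exp_pos _).le)]

theorem _root_.LQ.Gauss.exp_mul_abs_le (a x : ℝ) :
    Real.exp (a * |x|) ≤ Real.exp (a * x) + Real.exp (-a * x) := by
  rcases abs_cases x with ⟨h, _⟩ | ⟨h, _⟩
  · rw [h]; linarith [Real.exp_pos (-a * x)]
  · rw [h, show a * -x = -a * x by ring]; linarith [Real.exp_pos (a * x)]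

theorem lintegral_exp_abs_le (hW : IsIso W P) (h : H) (a : ℝ) :
    ∫⁻ ω, ENNReal.ofReal (Real.exp (a * |W h ω|)) ∂P ≤
      ENNReal.ofReal (2 * Real.exp (a ^ 2 * ‖h‖ ^ 2 / 2)) := by
  have hm : Measurable fun ω => ENNReal.ofReal (Real.exp (a * W h ω)) :=
    ((hW.meas h).const_mul a).exp.ennreal_ofReal
  calc ∫⁻ ω, ENNReal.ofReal (Real.exp (a * |W h ω|)) ∂P
      ≤ ∫⁻ ω, (ENNReal.ofReal (Real.exp (a * W h ω)) +
          ENNReal.ofReal (Real.exp (-a * W h ω))) ∂P := by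
        refine lintegral_mono fun ω => ?_
        rw [← ENNReal.ofReal_add (Real.exp_pos _).le (Real.exp_pos _).le]
        exact ENNReal.ofReal_le_ofReal (exp_mul_abs_le a _)
    _ = _ := by
        rw [lintegral_add_left hm, hW.lintegral_exp, hW.lintegral_exp, neg_sq,
          ← ENNReal.ofReal_add (Real.exp_pos _).le (Real.exp_pos _).le, two_mul]

theorem integrable_exp_abs (hW : IsIso W P) (h : H) (a : ℝ) :
    Integrable (fun ω => Real.exp (a * |W h ω|)) P := by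
  refine ((hW.integrable_exp h a).add (hW.integrable_exp h (-a))).mono'
    ((hW.meas h).abs.const_mul a).exp.aestronglyMeasurable (ae_of_all _ fun ω => ?_)
  rw [Real.norm_eq_abs, abs_of_pos (Real.exp_pos _)]
  exact exp_mul_abs_le a _

theorem integral_exp_abs_le (hW : IsIso W P) (h : H) (a : ℝ) :
    ∫ ω, Real.exp (a * |W h ω|) ∂P ≤ 2 * Real.exp (a ^ 2 * ‖h‖ ^ 2 / 2) := by
  have h1 := hW.lintegral_exp_abs_le h a
  rwa [← ofReal_integral_eq_lintegral_ofReal (hW.integrable_exp_abs h a)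
    (ae_of_all _ fun ω => (Real.exp_pos _).le), ENNReal.ofReal_le_ofReal_iff (by positivity)] at h1

/-- Gaussian tail, `‖h‖ ≤ σ`. -/
theorem tail (hW : IsIso W P) {h : H} {σ t : ℝ} (hσ : 0 < σ) (hh : ‖h‖ ≤ σ) (ht : 0 ≤ t) :
    P {ω | t ≤ W h ω} ≤ ENNReal.ofReal (Real.exp (-t ^ 2 / (2 * σ ^ 2))) := by
  have := hW.prob
  have ha : 0 ≤ t / σ ^ 2 := by positivity
  have h1 := measure_ge_le_exp_mul_mgf (X := W h) (μ := P) t ha (hW.integrable_exp h _)
  rw [mgf, hW.integral_exp, ← Real.exp_add] at h1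
  rw [← ofReal_measureReal]
  refine ENNReal.ofReal_le_ofReal (h1.trans (Real.exp_le_exp.2 ?_))
  have h2 : ‖h‖ ^ 2 ≤ σ ^ 2 := pow_le_pow_left₀ (norm_nonneg _) hh 2
  have h3 : (t / σ ^ 2) ^ 2 * ‖h‖ ^ 2 ≤ (t / σ ^ 2) ^ 2 * σ ^ 2 :=
    mul_le_mul_of_nonneg_left h2 (sq_nonneg _)
  have h4 : -(t / σ ^ 2) * t + (t / σ ^ 2) ^ 2 * σ ^ 2 / 2 = -t ^ 2 / (2 * σ ^ 2) := by
    field_simp
    ring
  linarith

theorem tail_abs (hW : IsIso W P) {h : H} {σ t : ℝ} (hσ : 0 < σ) (hh : ‖h‖ ≤ σ) (ht : 0 ≤ t) :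
    P {ω | t ≤ |W h ω|} ≤ ENNReal.ofReal (2 * Real.exp (-t ^ 2 / (2 * σ ^ 2))) := by
  have h1 := hW.tail hσ hh ht
  have h2 := hW.tail (h := -h) hσ (by simpa using hh) ht
  have h3 : P {ω | t ≤ |W h ω|} ≤ P ({ω | t ≤ W h ω} ∪ {ω | t ≤ W (-h) ω}) := by
    refine measure_mono_ae ?_
    filter_upwards [hW.neg h] with ω hω hle
    change t ≤ W h ω ∨ t ≤ W (-h) ω
    rw [hω]
    exact le_abs.1 hle
  refine h3.trans ((measure_union_le _ _).trans ((add_le_add h1 h2).trans (le_of_eq ?_)))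
  rw [← ENNReal.ofReal_add (Real.exp_pos _).le (Real.exp_pos _).le, ← two_mul]

/-- Criterion: linear a.s. with the right Laplace transform at 1. -/
theorem of_exp [IsProbabilityMeasure P] (meas : ∀ h, Measurable (W h))
    (add : ∀ g h, ∀ᵐ ω ∂P, W (g + h) ω = W g ω + W h ω)
    (smul : ∀ (a : ℝ) h, ∀ᵐ ω ∂P, W (a • h) ω = a * W h ω)
    (hexp : ∀ h, ∫ ω, Real.exp (W h ω) ∂P = Real.exp (‖h‖ ^ 2 / 2)) : IsIso W P := by
  refine ⟨meas, fun h => ?_, add, smul⟩
  refine map_eq_gaussianReal_of_mgf (meas h).aemeasurable fun t => ?_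
  have h1 : ∫ ω, Real.exp (t * W h ω) ∂P = ∫ ω, Real.exp (W (t • h) ω) ∂P := by
    refine integral_congr_ae ?_
    filter_upwards [smul t h] with ω hω
    rw [hω]
  rw [h1, hexp, norm_smul, mul_pow, Real.norm_eq_abs, sq_abs]
  congr 1
  simp [mul_comm]

theorem congr (hW : IsIso W P) {W' : H → Ω → ℝ} (hm : ∀ h, Measurable (W' h))
    (h : ∀ g, W' g =ᵐ[P] W g) : IsIso W' P := by
  refine ⟨hm, fun g => ?_, fun f g => ?_, fun a g => ?_⟩
  · rw [Measure.map_congr (h g), hW.law]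
  · filter_upwards [h (f + g), h f, h g, hW.add f g] with ω h1 h2 h3 h4
    rw [h1, h2, h3, h4]
  · filter_upwards [h (a • g), h g, hW.smul a g] with ω h1 h2 h3
    rw [h1, h2, h3]

theorem comp_isometry (hW : IsIso W P) (T : H' →ₗᵢ[ℝ] H) : IsIso (fun g => W (T g)) P := by
  refine ⟨fun g => hW.meas _, fun g => ?_, fun f g => ?_, fun a g => ?_⟩
  · rw [hW.law, T.nnnorm_map]
  · simpa using hW.add (T f) (T g)
  · simpa using hW.smul a (T g)

theorem comp_mp (hW : IsIso W P) {φ : Ω' → Ω} (hφ : MeasurePreserving φ P' P) :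
    IsIso (fun g ω => W g (φ ω)) P' := by
  refine ⟨fun g => (hW.meas g).comp hφ.measurable, fun g => ?_, fun f g => ?_, fun a g => ?_⟩
  · rw [← hW.law g, ← hφ.map_eq, Measure.map_map (hW.meas g) hφ.measurable]
    rfl
  · exact hφ.quasiMeasurePreserving.ae (hW.add f g)
  · exact hφ.quasiMeasurePreserving.ae (hW.smul a g)

/-- Two independent noises mixed by operators with `|A h|^2 + |B h|^2 = |h|^2`. -/
theorem mix {H₁ H₂ : Type*} [NormedAddCommGroup H₁] [InnerProductSpace ℝ H₁]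
    [NormedAddCommGroup H₂] [InnerProductSpace ℝ H₂] {W₁ : H₁ → Ω → ℝ} {W₂ : H₂ → Ω' → ℝ}
    (h₁ : IsIso W₁ P) (h₂ : IsIso W₂ P') (A : H →ₗ[ℝ] H₁) (B : H →ₗ[ℝ] H₂)
    (hAB : ∀ h, ‖A h‖ ^ 2 + ‖B h‖ ^ 2 = ‖h‖ ^ 2) :
    IsIso (fun h (x : Ω × Ω') => W₁ (A h) x.1 + W₂ (B h) x.2) (P.prod P') := by
  have := h₁.prob
  have := h₂.prob
  have q1 := (measurePreserving_fst (μ := P) (ν := P')).quasiMeasurePreserving
  have q2 := (measurePreserving_snd (μ := P) (ν := P')).quasiMeasurePreserving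
  refine of_exp (fun h => ((h₁.meas _).comp measurable_fst).add ((h₂.meas _).comp measurable_snd))
    (fun f g => ?_) (fun a g => ?_) (fun h => ?_)
  · filter_upwards [q1.ae (h₁.add (A f) (A g)), q2.ae (h₂.add (B f) (B g))] with x h1 h2
    rw [map_add, map_add, h1, h2]; ring
  · filter_upwards [q1.ae (h₁.smul a (A g)), q2.ae (h₂.smul a (B g))] with x h1 h2
    rw [map_smul, map_smul, h1, h2]; ring
  · simp_rw [Real.exp_add]
    rw [integral_prod_mul (fun ω => Real.exp (W₁ (A h) ω)) (fun ω => Real.exp (W₂ (B h) ω))]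
    have e1 := h₁.integral_exp (A h) 1
    have e2 := h₂.integral_exp (B h) 1
    simp only [one_mul, one_pow] at e1 e2
    rw [e1, e2, ← Real.exp_add, ← hAB h]
    congr 1
    ring

theorem eLpNorm_sub (hW : IsIso W P) (g h : H) : eLpNorm (W g - W h) 2 P = ‖g - h‖ₑ := by
  rw [← hW.eLpNorm_two]
  refine eLpNorm_congr_ae ?_
  filter_upwards [hW.sub g h] with ω hω
  simp [hω]

theorem tendstoInMeasure (hW : IsIso W P) {ι : Type*} {l : Filter ι} {f : ι → H} {h : H}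
    (hf : Tendsto f l (𝓝 h)) : TendstoInMeasure P (fun i => W (f i)) l (W h) := by
  refine tendstoInMeasure_of_tendsto_eLpNorm (p := 2) (by norm_num)
    (fun i => (hW.meas _).aestronglyMeasurable) (hW.meas _).aestronglyMeasurable ?_
  simp_rw [hW.eLpNorm_sub]
  exact tendsto_iff_enorm_sub_tendsto_zero.1 hf

/-- If `f n → h` and `W (f n)` converges a.s. to `Y`, then `Y = W h` a.s. -/
theorem ae_eq_of_tendsto (hW : IsIso W P) {f : ℕ → H} {h : H} {Y : Ω → ℝ}
    (hf : Tendsto f atTop (𝓝 h)) (hY : ∀ᵐ ω ∂P, Tendsto (fun n => W (f n) ω) atTop (𝓝 (Y ω))) :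
    Y =ᵐ[P] W h := by
  obtain ⟨ns, hns, h1⟩ := (hW.tendstoInMeasure hf).exists_seq_tendsto_ae
  filter_upwards [h1, hY] with ω h1 h2
  exact tendsto_nhds_unique (h2.comp hns.tendsto_atTop) h1

theorem ae_summable (hW : IsIso W P) {ι : Type*} [Countable ι] {f : ι → H}
    (hs : Summable fun i => ‖f i‖) : ∀ᵐ ω ∂P, Summable fun i => |W (f i) ω| := by
  have hm : ∀ i, Measurable fun ω => ‖W (f i) ω‖ₑ := fun i => (hW.meas _).enorm
  have h1 : ∫⁻ ω, ∑' i, ‖W (f i) ω‖ₑ ∂P ≠ ∞ := by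
    rw [lintegral_tsum fun i => (hm i).aemeasurable]
    refine ne_top_of_le_ne_top ?_ (ENNReal.tsum_le_tsum fun i => hW.lintegral_enorm_le (f i))
    exact tsum_enorm_ne_top_iff_summable_norm.2 hs
  filter_upwards [ae_lt_top (Measurable.tsum hm) h1] with ω hω
  simpa using tsum_enorm_ne_top_iff_summable_norm.1 hω.ne

/-- Summable norms: the series converges absolutely a.s. and `W` commutes with it. -/
theorem hasSum_ae (hW : IsIso W P) {ι : Type*} [Countable ι] {f : ι → H} {h : H}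
    (hs : Summable fun i => ‖f i‖) (hf : HasSum f h) :
    ∀ᵐ ω ∂P, HasSum (fun i => W (f i) ω) (W h ω) := by
  obtain ⟨u, hu⟩ := (atTop : Filter (Finset ι)).exists_seq_tendsto
  have h1 : ∀ᵐ ω ∂P, ∀ n, W (∑ i ∈ u n, f i) ω = ∑ i ∈ u n, W (f i) ω :=
    ae_all_iff.2 fun n => hW.sum (u n) f
  have h2 : ∀ᵐ ω ∂P, HasSum (fun i => W (f i) ω) (∑' i, W (f i) ω) := by
    filter_upwards [hW.ae_summable hs] with ω hω
    exact (Summable.of_abs hω).hasSum
  have h3 : (fun ω => ∑' i, W (f i) ω) =ᵐ[P] W h := by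
    have hf' : Tendsto (fun s : Finset ι => ∑ i ∈ s, f i) atTop (𝓝 h) := hf
    refine hW.ae_eq_of_tendsto (f := fun n => ∑ i ∈ u n, f i) (hf'.comp hu) ?_
    filter_upwards [h1, h2] with ω h1 h2
    simp_rw [h1]
    have h2' : Tendsto (fun s : Finset ι => ∑ i ∈ s, W (f i) ω) atTop (𝓝 (∑' i, W (f i) ω)) := h2
    exact h2'.comp hu
  filter_upwards [h2, h3] with ω h2 h3
  rwa [h3] at h2

end IsIso

end LQ.Gauss
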