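import Pool.Agent.Lib.MP_0d9445_pr.Gauss.Tilt

/-! Gaussian toolkit, part 5: the canonical white noise over a separable Hilbert space. -/

open MeasureTheory ProbabilityTheory Filter Topology
open scoped RealInnerProductSpace NNReal ENNReal

namespace LQ.Gauss

section Series
variable {ι : Type*}

/-- product of standard Gaussians -/
noncomputable def gaussPi (ι : Type*) : Measure (ι → ℝ) :=
  Measure.infinitePi fun _ => gaussianReal 0 1

instance : IsProbabilityMeasure (gaussPi ι) := by unfold gaussPi; infer_instance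

theorem gaussPi_map_eval (i : ι) : (gaussPi ι).map (fun ω => ω i) = gaussianReal 0 1 :=
  Measure.infinitePi_map_eval (fun _ : ι => gaussianReal 0 1) i

theorem gaussPi_iIndepFun : iIndepFun (fun (i : ι) (ω : ι → ℝ) => ω i) (gaussPi ι) :=
  iIndepFun_infinitePi (P := fun _ : ι => gaussianReal 0 1) (X := fun _ x => x)
    fun _ => measurable_id

theorem gaussPi_map_sum (s : Finset ι) (a : ι → ℝ) :
    (gaussPi ι).map (fun ω => ∑ i ∈ s, a i * ω i) =
      gaussianReal 0 (∑ i ∈ s, a i ^ 2).toNNReal := by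
  have hm : ∀ i, Measurable fun ω : ι → ℝ => a i * ω i := fun i =>
    (measurable_pi_apply i).const_mul _
  refine map_eq_gaussianReal_of_mgf (Finset.measurable_sum _ fun i _ => hm i).aemeasurable
    fun t => ?_
  have h1 : iIndepFun (fun (i : ι) (ω : ι → ℝ) => a i * ω i) (gaussPi ι) :=
    gaussPi_iIndepFun.comp (fun i x => a i * x) fun i => measurable_id.const_mul _
  have h2 := h1.mgf_sum hm s (t := t)
  have h3 : ∀ i, mgf (fun ω : ι → ℝ => a i * ω i) (gaussPi ι) t =
      Real.exp (a i ^ 2 * t ^ 2 / 2) := fun i => by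
    rw [mgf_const_mul, mgf_gaussianReal (gaussPi_map_eval i)]
    congr 1
    simp; ring
  simp_rw [h3] at h2
  rw [← Real.exp_sum] at h2
  rw [Real.coe_toNNReal _ (Finset.sum_nonneg fun i _ => sq_nonneg _), Finset.sum_mul,
    Finset.sum_div, ← h2, mgf]
  simp [Finset.sum_apply]

theorem gaussPi_hasLaw_sum (s : Finset ι) (a : ι → ℝ) :
    HasLaw (fun ω : ι → ℝ => ∑ i ∈ s, a i * ω i) (gaussianReal 0 (∑ i ∈ s, a i ^ 2).toNNReal)
      (gaussPi ι) :=
  ⟨(Finset.measurable_sum _ fun i _ => (measurable_pi_apply i).const_mul _).aemeasurable,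
    gaussPi_map_sum s a⟩

theorem gaussPi_eLpNorm_sum_le (s : Finset ι) (a : ι → ℝ) {R : ℝ} (hR : ∑ i ∈ s, a i ^ 2 ≤ R) :
    eLpNorm (fun ω : ι → ℝ => ∑ i ∈ s, a i * ω i) 1 (gaussPi ι) ≤ (1 + R).toNNReal := by
  have hl := gaussPi_hasLaw_sum s a
  have hg := hl.hasGaussianLaw
  have h0 : ∫ ω, ∑ i ∈ s, a i * ω i ∂(gaussPi ι) = 0 := by
    rw [hl.integral_eq, integral_id_gaussianReal]
  have hv : ∫ ω, (∑ i ∈ s, a i * ω i) ^ 2 ∂(gaussPi ι) = ∑ i ∈ s, a i ^ 2 := by
    rw [← variance_of_integral_eq_zero hl.aemeasurable h0, hl.variance_eq,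
      variance_id_gaussianReal, Real.coe_toNNReal _ (Finset.sum_nonneg fun i _ => sq_nonneg _)]
  have i2 : Integrable (fun ω : ι → ℝ => (∑ i ∈ s, a i * ω i) ^ 2) (gaussPi ι) :=
    hg.memLp_two.integrable_sq
  have i3 : Integrable (fun ω : ι → ℝ => 1 + (∑ i ∈ s, a i * ω i) ^ 2) (gaussPi ι) :=
    (integrable_const _).add i2
  rw [eLpNorm_one_eq_lintegral_enorm, ← ofReal_integral_norm_eq_lintegral_enorm hg.integrable]
  refine ENNReal.ofReal_le_ofReal ?_
  calc ∫ ω, ‖∑ i ∈ s, a i * ω i‖ ∂(gaussPi ι)
      ≤ ∫ ω, (1 + (∑ i ∈ s, a i * ω i) ^ 2) ∂(gaussPi ι) := by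
        refine integral_mono_of_nonneg (ae_of_all _ fun ω => norm_nonneg _) i3
          (ae_of_all _ fun ω => ?_)
        change ‖∑ i ∈ s, a i * ω i‖ ≤ 1 + (∑ i ∈ s, a i * ω i) ^ 2
        rw [Real.norm_eq_abs, ← sq_abs]
        nlinarith [sq_nonneg (|∑ i ∈ s, a i * ω i| - 1), abs_nonneg (∑ i ∈ s, a i * ω i)]
    _ ≤ 1 + R := by
        rw [integral_add (integrable_const _) i2, hv]
        simpa using hR

/-- A series of independent centred Gaussians with bounded variance converges a.s. -/
theorem gaussPi_ae_tendsto (E : ℕ → Finset ι) (hE : Monotone E) (a : ι → ℝ) {R : ℝ}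
    (hR : ∀ N, ∑ i ∈ E N, a i ^ 2 ≤ R) :
    ∀ᵐ ω ∂(gaussPi ι), ∃ l, Tendsto (fun N => ∑ i ∈ E N, a i * ω i) atTop (𝓝 l) := by
  classical
  let F : Filtration ℕ (MeasurableSpace.pi : MeasurableSpace (ι → ℝ)) :=
    { seq := fun N => Filtration.piFinset (X := fun _ : ι => ℝ) (E N)
      mono' := fun _ _ h => (Filtration.piFinset (X := fun _ : ι => ℝ)).mono (hE h)
      le' := fun N => (Filtration.piFinset (X := fun _ : ι => ℝ)).le (E N) }
  have hmeas : ∀ (s : Finset ι), Measurable[MeasurableSpace.pi.comap s.restrict]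
      fun ω : ι → ℝ => ∑ i ∈ s, a i * ω i := fun s => by
    have h1 : Measurable fun x : s → ℝ => ∑ i : s, a i * x i :=
      Finset.measurable_sum _ fun i _ => (measurable_pi_apply i).const_mul _
    have h2 := h1.comp (comap_measurable (s.restrict (π := fun _ : ι => ℝ)))
    convert h2 using 1
    ext ω
    exact (Finset.sum_coe_sort s fun i => a i * ω i).symm
  have hint : ∀ s : Finset ι, Integrable (fun ω : ι → ℝ => ∑ i ∈ s, a i * ω i) (gaussPi ι) :=
    fun s => (gaussPi_hasLaw_sum s a).hasGaussianLaw.integrable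
  have hM : Martingale (fun N (ω : ι → ℝ) => ∑ i ∈ E N, a i * ω i) F (gaussPi ι) := by
    refine martingale_nat (fun N => (hmeas (E N)).stronglyMeasurable) (fun N => hint _) fun N => ?_
    have e : (fun ω : ι → ℝ => ∑ i ∈ E (N + 1), a i * ω i) =
        (fun ω : ι → ℝ => ∑ i ∈ E N, a i * ω i) +
          fun ω : ι → ℝ => ∑ i ∈ E (N + 1) \ E N, a i * ω i := by
      ext ω
      simp only [Pi.add_apply]
      exact (Finset.sum_sdiff (hE (Nat.le_succ N))).symm.trans (add_comm _ _)
    have hind : Indep (MeasurableSpace.pi.comap (E (N + 1) \ E N).restrict) (F N) (gaussPi ι) :=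
      gaussPi_iIndepFun.indepFun_finset (E (N + 1) \ E N) (E N) Finset.sdiff_disjoint
        fun i => measurable_pi_apply i
    have h1 := condExp_indep_eq (μ := gaussPi ι) (E (N + 1) \ E N).measurable_restrict.comap_le
      (F.le N) (hmeas (E (N + 1) \ E N)).stronglyMeasurable hind
    have h0 : ∫ ω, ∑ i ∈ E (N + 1) \ E N, a i * ω i ∂(gaussPi ι) = 0 := by
      rw [(gaussPi_hasLaw_sum _ a).integral_eq, integral_id_gaussianReal]
    rw [e]
    filter_upwards [condExp_add (hint (E N)) (hint (E (N + 1) \ E N)) (F N), h1] with ω h2 h3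
    rw [h2, Pi.add_apply, h3, h0,
      condExp_of_stronglyMeasurable (F.le N) (hmeas (E N)).stronglyMeasurable (hint _), add_zero]
  exact hM.submartingale.exists_ae_tendsto_of_bdd (R := (1 + R).toNNReal)
    fun N => gaussPi_eLpNorm_sum_le _ a (hR N)

/-- a.s. limits of centred Gaussians are centred Gaussians -/
theorem map_eq_gaussianReal_of_tendsto {Ω : Type*} {mΩ : MeasurableSpace Ω} {P : Measure Ω}
    [IsProbabilityMeasure P] {X : ℕ → Ω → ℝ} {Y : Ω → ℝ} {v : ℕ → ℝ≥0} {w : ℝ≥0}
    (hX : ∀ n, HasLaw (X n) (gaussianReal 0 (v n)) P) (hY : AEMeasurable Y P)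
    (hl : ∀ᵐ ω ∂P, Tendsto (fun n => X n ω) atTop (𝓝 (Y ω)))
    (hv : Tendsto (fun n => (v n : ℝ)) atTop (𝓝 (w : ℝ))) : P.map Y = gaussianReal 0 w := by
  refine Measure.ext_of_charFun (funext fun t => ?_)
  have hc : Continuous fun x : ℝ => Complex.exp (t * x * Complex.I) := by fun_prop
  have h1 : ∀ n, ∫ ω, Complex.exp (t * X n ω * Complex.I) ∂P =
      Complex.exp (-((v n : ℝ) * (t : ℂ) ^ 2 / 2)) := fun n => by
    have h2 := charFun_gaussianReal (μ := 0) (v := v n) t
    rw [← (hX n).map_eq, charFun_apply_real,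
      integral_map (hX n).aemeasurable hc.aestronglyMeasurable] at h2
    simpa using h2
  have h3 : Tendsto (fun n => ∫ ω, Complex.exp (t * X n ω * Complex.I) ∂P) atTop
      (𝓝 (∫ ω, Complex.exp (t * Y ω * Complex.I) ∂P)) := by
    refine tendsto_integral_of_dominated_convergence (fun _ => 1)
      (fun n => hc.comp_aestronglyMeasurable (hX n).aemeasurable.aestronglyMeasurable)
      (integrable_const _) (fun n => ae_of_all _ fun ω => ?_) ?_
    · rw [← Complex.ofReal_mul, Complex.norm_exp_ofReal_mul_I]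
    · filter_upwards [hl] with ω hω
      exact (hc.tendsto _).comp hω
  simp_rw [h1] at h3
  have hc2 : Continuous fun x : ℝ => Complex.exp (-(x * (t : ℂ) ^ 2 / 2)) := by fun_prop
  have h4 := (hc2.tendsto _).comp hv
  rw [charFun_apply_real, integral_map hY hc.aestronglyMeasurable, tendsto_nhds_unique h3 h4,
    charFun_gaussianReal]
  simp

end Series

variable {H Ω : Type*} [NormedAddCommGroup H] [InnerProductSpace ℝ H] {mΩ : MeasurableSpace Ω}
  {P : Measure Ω} {W : H → Ω → ℝ}

theorem countable_of_orthonormal [SecondCountableTopology H] {ι : Type*} {e : ι → H}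
    (he : Orthonormal ℝ e) : Countable ι := by
  refine Pairwise.countable_of_isOpen_disjoint (s := fun i => Metric.ball (e i) (1 / 2))
    (fun i j hij => Metric.ball_disjoint_ball ?_) (fun i => Metric.isOpen_ball)
    fun i => Metric.nonempty_ball.2 (by norm_num)
  rw [dist_eq_norm]
  have h1 := norm_sub_sq_real (e i) (e j)
  rw [he.1 i, he.1 j, he.2 hij] at h1
  nlinarith [norm_nonneg (e i - e j)]

section Canon
variable (H) [CompleteSpace H]

/-- index set of a chosen Hilbert basis -/
noncomputable def bIdx : Set H := (exists_hilbertBasis ℝ H).choose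

/-- a chosen Hilbert basis -/
noncomputable def bas : HilbertBasis (bIdx H) ℝ H := (exists_hilbertBasis ℝ H).choose_spec.choose

/-- sample space (standard Borel) -/
abbrev Om := bIdx H → ℝ

/-- product of standard Gaussians -/
noncomputable def wnP : Measure (Om H) := Measure.infinitePi fun _ => gaussianReal 0 1

instance : IsProbabilityMeasure (wnP H) := by unfold wnP; infer_instance

variable [SecondCountableTopology H]

instance : Countable (bIdx H) := countable_of_orthonormal (bas H).orthonormal

/-- finite sets exhausting the index set -/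
noncomputable def exh (N : ℕ) : Finset (bIdx H) :=
  (Finset.range N).preimage (exists_injective_nat (bIdx H)).choose
    (exists_injective_nat (bIdx H)).choose_spec.injOn

theorem exh_mono : Monotone (exh H) := fun _ _ h =>
  Finset.monotone_preimage (exists_injective_nat (bIdx H)).choose_spec (Finset.range_mono h)

theorem exh_tendsto : Tendsto (exh H) atTop atTop :=
  (tendsto_finset_preimage_atTop_atTop (exists_injective_nat (bIdx H)).choose_spec).comp
    tendsto_finset_range

variable {H}

/-- truncated series -/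
noncomputable def part (N : ℕ) (h : H) (ω : Om H) : ℝ := ∑ i ∈ exh H N, ⟪bas H i, h⟫ * ω i

/-- white noise -/
noncomputable def wn (h : H) (ω : Om H) : ℝ := limUnder atTop fun N => part N h ω

/-- the series converges -/
def Good (h : H) (ω : Om H) : Prop := ∃ l, Tendsto (fun N => part N h ω) atTop (𝓝 l)

omit [SecondCountableTopology H] in
/-- Cameron-Martin shift of the sample point -/
noncomputable def shift (v : H) (ω : Om H) : Om H := fun i => ω i + ⟪bas H i, v⟫

omit [SecondCountableTopology H] in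
/-- the sample point read off another isonormal process -/
noncomputable def pull (W : H → Ω → ℝ) (ω : Ω) : Om H := fun i => W (bas H i) ω

theorem Good.tendsto {h : H} {ω : Om H} (hh : Good h ω) :
    Tendsto (fun N => part N h ω) atTop (𝓝 (wn h ω)) := tendsto_nhds_limUnder hh

theorem wn_eq_of_tendsto {h : H} {ω : Om H} {l : ℝ}
    (hl : Tendsto (fun N => part N h ω) atTop (𝓝 l)) : Good h ω ∧ wn h ω = l :=
  ⟨⟨l, hl⟩, hl.limUnder_eq⟩

theorem tendsto_exh_inner (g h : H) :
    Tendsto (fun N => ∑ i ∈ exh H N, ⟪g, bas H i⟫ * ⟪bas H i, h⟫) atTop (𝓝 ⟪g, h⟫) := by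
  have h1 : Tendsto (fun s : Finset (bIdx H) => ∑ i ∈ s, ⟪g, bas H i⟫ * ⟪bas H i, h⟫) atTop
      (𝓝 ⟪g, h⟫) := (bas H).hasSum_inner_mul_inner g h
  exact h1.comp (exh_tendsto H)

theorem tendsto_exh_sum (h : H) :
    Tendsto (fun N => ∑ i ∈ exh H N, ⟪bas H i, h⟫ • bas H i) atTop (𝓝 h) := by
  have h0 := (bas H).hasSum_repr h
  simp_rw [HilbertBasis.repr_apply_apply] at h0
  have h1 : Tendsto (fun s : Finset (bIdx H) => ∑ i ∈ s, ⟪bas H i, h⟫ • bas H i) atTop (𝓝 h) := h0
  exact h1.comp (exh_tendsto H)

theorem good_ae (h : H) : ∀ᵐ ω ∂(wnP H), Good h ω := by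
  refine gaussPi_ae_tendsto (exh H) (exh_mono H) (fun i => ⟪bas H i, h⟫) (R := ‖h‖ ^ 2) fun N => ?_
  simpa using (bas H).orthonormal.sum_inner_products_le (s := exh H N) h

theorem Good.add {g h : H} {ω : Om H} (hg : Good g ω) (hh : Good h ω) :
    Good (g + h) ω ∧ wn (g + h) ω = wn g ω + wn h ω := by
  refine wn_eq_of_tendsto ?_
  convert hg.tendsto.add hh.tendsto using 2 with N
  simp [part, inner_add_right, add_mul, Finset.sum_add_distrib]

theorem Good.smul {h : H} {ω : Om H} (hh : Good h ω) (a : ℝ) :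
    Good (a • h) ω ∧ wn (a • h) ω = a * wn h ω := by
  refine wn_eq_of_tendsto ?_
  convert hh.tendsto.const_mul a using 2 with N
  simp [part, real_inner_smul_right, Finset.mul_sum, mul_assoc]

theorem good_zero (ω : Om H) : Good (0 : H) ω ∧ wn (0 : H) ω = 0 :=
  wn_eq_of_tendsto (by simp [part])

/-- the shift acts pointwise, for EVERY v at once (so v may be random) -/
theorem Good.shift {h : H} {ω : Om H} (hh : Good h ω) (v : H) :
    Good h (shift v ω) ∧ wn h (shift v ω) = wn h ω + ⟪v, h⟫ := by
  refine wn_eq_of_tendsto ?_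
  convert hh.tendsto.add (tendsto_exh_inner v h) using 2 with N
  simp only [part, LQ.Gauss.shift, mul_add, Finset.sum_add_distrib]
  congr 1
  exact Finset.sum_congr rfl fun i _ => by rw [mul_comm, real_inner_comm]

theorem wn_bas (i : bIdx H) (ω : Om H) : wn (bas H i) ω = ω i := by
  classical
  refine (wn_eq_of_tendsto (tendsto_const_nhds.congr' ?_)).2
  filter_upwards [(exh_tendsto H).eventually_ge_atTop {i}] with N hN
  have hi : i ∈ exh H N := hN (Finset.mem_singleton_self i)
  rw [part, Finset.sum_eq_single_of_mem i hi]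
  · rw [real_inner_self_eq_norm_sq, (bas H).orthonormal.1 i]; simp
  · intro j _ hj
    rw [(bas H).orthonormal.2 hj, zero_mul]

theorem part_meas (N : ℕ) (h : H) : Measurable (part N h) :=
  Finset.measurable_sum _ fun i _ => (measurable_pi_apply i).const_mul _

theorem wn_meas_right (h : H) : Measurable (wn h) :=
  (StronglyMeasurable.limUnder (l := atTop) (f := fun N => part N h)
    fun N => (part_meas N h).stronglyMeasurable).measurable

theorem wn_isIso : IsIso (wn (H := H)) (wnP H) := by
  refine ⟨wn_meas_right, fun h => ?_, fun g h => ?_, fun a h => ?_⟩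
  · refine map_eq_gaussianReal_of_tendsto (X := fun N => part N h)
      (v := fun N => (∑ i ∈ exh H N, ⟪bas H i, h⟫ ^ 2).toNNReal)
      (fun N => gaussPi_hasLaw_sum (exh H N) fun i => ⟪bas H i, h⟫)
      (wn_meas_right h).aemeasurable ((good_ae h).mono fun ω hω => hω.tendsto) ?_
    convert tendsto_exh_inner h h using 2 with N
    · rw [Real.coe_toNNReal _ (Finset.sum_nonneg fun i _ => sq_nonneg _)]
      exact Finset.sum_congr rfl fun i _ => by rw [sq, real_inner_comm (bas H i) h]
    · simp
  · filter_upwards [good_ae g, good_ae h] with ω hg hh using (hg.add hh).2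
  · filter_upwards [good_ae h] with ω hh using (hh.smul a).2

section Joint
variable [MeasurableSpace H] [BorelSpace H]

theorem part_meas_joint (N : ℕ) : Measurable fun x : H × Om H => part N x.1 x.2 :=
  Finset.measurable_sum _ fun i _ =>
    (((continuous_const.inner continuous_id).measurable (f := fun h : H => ⟪bas H i, h⟫)).comp
      measurable_fst).mul ((measurable_pi_apply i).comp measurable_snd)

theorem wn_meas : Measurable (Function.uncurry (wn (H := H))) :=
  (StronglyMeasurable.limUnder (l := atTop) (f := fun N (x : H × Om H) => part N x.1 x.2)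
    fun N => (part_meas_joint N).stronglyMeasurable).measurable

theorem good_meas : MeasurableSet {x : H × Om H | Good x.1 x.2} :=
  measurableSet_exists_tendsto (l := atTop) (f := fun N (x : H × Om H) => part N x.1 x.2)
    part_meas_joint

omit [SecondCountableTopology H] in
theorem shift_meas : Measurable (Function.uncurry (shift (H := H))) :=
  measurable_pi_lambda _ fun i => ((measurable_pi_apply i).comp measurable_snd).add
    (((continuous_const.inner continuous_id).measurable (f := fun h : H => ⟪bas H i, h⟫)).comp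
      measurable_fst)

/-- along a measurable family the series converges for a.e. parameter -/
theorem good_ae_ae {X : Type*} {mX : MeasurableSpace X} {m : Measure X} [SFinite m] {k : X → H}
    (hk : Measurable k) : ∀ᵐ ω ∂(wnP H), ∀ᵐ x ∂m, Good (k x) ω :=
  (Measure.ae_ae_comm (p := fun x ω => Good (k x) ω)
    ((hk.prodMap measurable_id) good_meas)).1 (ae_of_all _ fun x => good_ae (k x))

end Joint

omit [SecondCountableTopology H] in
theorem shift_meas_right (v : H) : Measurable (shift v) :=
  measurable_pi_lambda _ fun i => (measurable_pi_apply i).add_const _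

omit [SecondCountableTopology H] in
theorem shift_add (u v : H) (ω : Om H) : shift u (shift v ω) = shift (u + v) ω := by
  ext i
  simp only [shift, inner_add_right]
  ring

omit [SecondCountableTopology H] in
@[simp] theorem shift_zero (ω : Om H) : shift (0 : H) ω = ω := by
  ext i
  simp [shift]

/-- Cameron-Martin on the canonical space: every functional. -/
theorem map_shift (v : H) : (wnP H).map (shift v) = tilt wn v (wnP H) := by
  have h1 := (wn_isIso (H := H)).map_tilt v (bas H)
  simp_rw [wn_bas] at h1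
  rw [Measure.map_id'] at h1
  rw [h1]
  congr 1
  ext ω i
  rw [shift, real_inner_comm]

theorem shift_qmp (v : H) : Measure.QuasiMeasurePreserving (shift v) (wnP H) (wnP H) :=
  ⟨shift_meas_right v, by rw [map_shift]; exact (wn_isIso.tilt_ac v).1⟩

theorem lintegral_shift (v : H) {F : Om H → ℝ≥0∞} (hF : Measurable F) :
    ∫⁻ ω, F (shift v ω) ∂(wnP H) = ∫⁻ ω, ENNReal.ofReal (dens wn v ω) * F ω ∂(wnP H) := by
  rw [← lintegral_map hF (shift_meas_right v), map_shift,
    wn_isIso.lintegral_tilt_eq v hF.aemeasurable]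

theorem integral_shift (v : H) {F : Om H → ℝ} (hF : Measurable F) :
    ∫ ω, F (shift v ω) ∂(wnP H) = ∫ ω, dens wn v ω * F ω ∂(wnP H) := by
  rw [← integral_map (shift_meas_right v).aemeasurable hF.aestronglyMeasurable, map_shift,
    wn_isIso.integral_tilt_eq v]

omit [SecondCountableTopology H] in
/-- Universal property: every isonormal process over `H` is `wn` read through `pull`. -/
theorem IsIso.pull_mp (hW : IsIso W P) : MeasurePreserving (pull W) P (wnP H) :=
  ⟨hW.meas_family (bas H), hW.map_orthonormal (bas H).orthonormal⟩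

theorem IsIso.wn_pull (hW : IsIso W P) (h : H) : ∀ᵐ ω ∂P, wn h (pull W ω) = W h ω := by
  refine hW.ae_eq_of_tendsto (tendsto_exh_sum h) ?_
  have h1 : ∀ᵐ ω ∂P, ∀ N, W (∑ i ∈ exh H N, ⟪bas H i, h⟫ • bas H i) ω = part N h (pull W ω) :=
    ae_all_iff.2 fun N => hW.sum_smul (exh H N) (fun i => ⟪bas H i, h⟫) (bas H)
  filter_upwards [h1, hW.pull_mp.quasiMeasurePreserving.ae (good_ae h)] with ω h1 h2
  simp_rw [h1]
  exact h2.tendsto

/-- isometries act by measure preserving maps -/
noncomputable def act (U : H →ₗᵢ[ℝ] H) : Om H → Om H := pull fun h => wn (U h)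

theorem act_mp (U : H →ₗᵢ[ℝ] H) : MeasurePreserving (act U) (wnP H) (wnP H) :=
  (wn_isIso.comp_isometry U).pull_mp

theorem wn_act (U : H →ₗᵢ[ℝ] H) (h : H) : ∀ᵐ ω ∂(wnP H), wn h (act U ω) = wn (U h) ω :=
  (wn_isIso.comp_isometry U).wn_pull h

end Canon

end LQ.Gauss
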