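import Pool.Agent.Lib.MP_0d9445_pr.Gauss.Canon

/-! Gaussian toolkit, part 7: resampling an orthogonal part, random Cameron-Martin shifts. -/

open MeasureTheory ProbabilityTheory Filter Topology
open scoped RealInnerProductSpace NNReal ENNReal

namespace LQ.Gauss

variable {H : Type*} [NormedAddCommGroup H] [InnerProductSpace ℝ H] [CompleteSpace H]
  [SecondCountableTopology H] (K : Submodule ℝ H) [K.HasOrthogonalProjection]

theorem integral_comp_mp {α β : Type*} {mα : MeasurableSpace α} {mβ : MeasurableSpace β}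
    {μ : Measure α} {ν : Measure β} {φ : α → β} (hφ : MeasurePreserving φ μ ν) {F : β → ℝ}
    (hF : Measurable F) : ∫ x, F (φ x) ∂μ = ∫ y, F y ∂ν := by
  rw [← hφ.map_eq, integral_map hφ.measurable.aemeasurable hF.aestronglyMeasurable]

/-- resample: keep the `K` part of the first point and the `Kᗮ` part of the second -/
noncomputable def glue (x : Om H × Om H) : Om H :=
  pull (fun h (y : Om H × Om H) => wn (K.starProjection h) y.1 + wn (h - K.starProjection h) y.2) x

theorem glue_isIso : IsIso (fun h (y : Om H × Om H) =>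
    wn (K.starProjection h) y.1 + wn (h - K.starProjection h) y.2) ((wnP H).prod (wnP H)) := by
  have h0 := (wn_isIso (H := H)).mix (wn_isIso (H := H)) (K.starProjection : H →ₗ[ℝ] H)
    (LinearMap.id - (K.starProjection : H →ₗ[ℝ] H)) fun h => by
      have h1 := norm_add_sq_real (K.starProjection h) (h - K.starProjection h)
      rw [real_inner_comm, K.starProjection_inner_eq_zero h _ (K.starProjection_apply_mem h)] at h1
      simp only [add_sub_cancel, mul_zero, add_zero] at h1
      simpa using h1.symm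
  simp only [LinearMap.sub_apply, LinearMap.id_apply, ContinuousLinearMap.coe_coe] at h0
  exact h0

theorem glue_mp : MeasurePreserving (glue K) ((wnP H).prod (wnP H)) (wnP H) :=
  (glue_isIso K).pull_mp

theorem wn_glue (h : H) : ∀ᵐ x ∂((wnP H).prod (wnP H)),
    wn h (glue K x) = wn (K.starProjection h) x.1 + wn (h - K.starProjection h) x.2 :=
  (glue_isIso K).wn_pull h

/-- a variable measurable for `sig wn K` only sees the first point -/
theorem comp_glue_fst {α : Type*} [MeasurableSpace α] [MeasurableSpace.CountablySeparated α]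
    {Y : Om H → α} (hY : Measurable[sig wn (K : Set H)] Y) :
    ∀ᵐ x ∂((wnP H).prod (wnP H)), Y (glue K x) = Y x.1 := by
  refine comp_ae_eq_of_sig (W := wn) (φ := glue K) (ψ := Prod.fst) (fun g hg => ?_) hY
  filter_upwards [wn_glue K g] with x hx
  rw [hx, Submodule.starProjection_eq_self_iff.2 hg, sub_self, (good_zero _).2, add_zero]

theorem comp_glue_snd {α : Type*} [MeasurableSpace α] [MeasurableSpace.CountablySeparated α]
    {Y : Om H → α} (hY : Measurable[sig wn ((Kᗮ : Submodule ℝ H) : Set H)] Y) :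
    ∀ᵐ x ∂((wnP H).prod (wnP H)), Y (glue K x) = Y x.2 := by
  refine comp_ae_eq_of_sig (W := wn) (φ := glue K) (ψ := Prod.snd) (fun g hg => ?_) hY
  have h0 : K.starProjection g = 0 := (Submodule.starProjection_apply_eq_zero_iff K).2 hg
  filter_upwards [wn_glue K g] with x hx
  rw [hx, h0, sub_zero, (good_zero _).2, zero_add]

/-- shifting the first point by a vector of `K` shifts the glued point, for all vectors at once -/
theorem glue_shift_ae : ∀ᵐ x ∂(wnP H), ∀ v ∈ K, ∀ y,
    glue K (shift v x, y) = shift v (glue K (x, y)) := by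
  have h1 : ∀ᵐ x ∂(wnP H), ∀ i, Good (K.starProjection (bas H i)) x :=
    ae_all_iff.2 fun i => good_ae _
  filter_upwards [h1] with x hx v hv y
  ext i
  simp only [glue, pull, shift]
  rw [((hx i).shift v).2, ← Submodule.inner_starProjection_left_eq_right,
    Submodule.starProjection_eq_self_iff.2 hv, real_inner_comm]
  ring

variable [MeasurableSpace H] [BorelSpace H] {v : Om H → H}

/-- Cameron-Martin with a RANDOM shift: `v` takes values in `K` and is measurable for `Kᗮ`.
(The density lives on the product space: `wn (v ω) ω` is NOT the right object for random `v`.) -/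
theorem lintegral_shift_random (hv : Measurable[sig wn ((Kᗮ : Submodule ℝ H) : Set H)] v)
    (hK : ∀ ω, v ω ∈ K) {F : Om H × Om H → ℝ≥0∞} (hF : Measurable F) :
    ∫⁻ ω, F (ω, shift (v ω) ω) ∂(wnP H) =
      ∫⁻ y, ∫⁻ x, ENNReal.ofReal (dens wn (v y) x) *
        F (shift (-v y) (glue K (x, y)), glue K (x, y)) ∂(wnP H) ∂(wnP H) := by
  have hv' : Measurable v := hv.mono (wn_isIso.sig_le _) le_rfl
  have hg := (glue_mp K).measurable
  have m1 : Measurable fun ω => F (ω, shift (v ω) ω) :=
    hF.comp (measurable_id.prodMk (shift_meas.comp (hv'.prodMk measurable_id)))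
  have m2 : Measurable fun x : Om H × Om H => F (glue K x, shift (v x.2) (glue K x)) :=
    hF.comp (hg.prodMk (shift_meas.comp ((hv'.comp measurable_snd).prodMk hg)))
  rw [← (glue_mp K).lintegral_comp m1]
  have e1 : ∫⁻ x, F (glue K x, shift (v (glue K x)) (glue K x)) ∂((wnP H).prod (wnP H)) =
      ∫⁻ x, F (glue K x, shift (v x.2) (glue K x)) ∂((wnP H).prod (wnP H)) := by
    refine lintegral_congr_ae ?_
    filter_upwards [comp_glue_snd K hv] with x hx
    rw [hx]
  rw [e1, lintegral_prod_symm _ m2.aemeasurable]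
  refine lintegral_congr fun y => ?_
  have m3 : Measurable fun x : Om H => glue K (x, y) := hg.comp measurable_prodMk_right
  rw [← lintegral_shift (v y) (F := fun x => F (shift (-v y) (glue K (x, y)), glue K (x, y)))
    (hF.comp (((shift_meas_right _).comp m3).prodMk m3))]
  refine lintegral_congr_ae ?_
  filter_upwards [glue_shift_ae K] with x hx
  rw [hx _ (hK y), shift_add, neg_add_cancel, shift_zero]

theorem lintegral_shift_random' (hv : Measurable[sig wn ((Kᗮ : Submodule ℝ H) : Set H)] v)
    (hK : ∀ ω, v ω ∈ K) {F : Om H → ℝ≥0∞} (hF : Measurable F) :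
    ∫⁻ ω, F (shift (v ω) ω) ∂(wnP H) =
      ∫⁻ y, ∫⁻ x, ENNReal.ofReal (dens wn (v y) x) * F (glue K (x, y)) ∂(wnP H) ∂(wnP H) :=
  lintegral_shift_random K hv hK (F := fun z => F z.2) (hF.comp measurable_snd)

/-- Hoelder cost of a random shift of bounded norm -/
theorem lintegral_shift_random_le (hv : Measurable[sig wn ((Kᗮ : Submodule ℝ H) : Set H)] v)
    (hK : ∀ ω, v ω ∈ K) {R : ℝ} (hR : ∀ ω, ‖v ω‖ ≤ R) {F : Om H → ℝ≥0∞} (hF : Measurable F)
    {p q : ℝ} (hpq : p.HolderConjugate q) :
    ∫⁻ ω, F (shift (v ω) ω) ∂(wnP H) ≤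
      ENNReal.ofReal (Real.exp ((q - 1) * R ^ 2 / 2)) * (∫⁻ ω, F ω ^ p ∂(wnP H)) ^ (1 / p) := by
  have hv' : Measurable v := hv.mono (wn_isIso.sig_le _) le_rfl
  have hg := (glue_mp K).measurable
  have md : Measurable fun x : Om H × Om H => ENNReal.ofReal (dens wn (v x.2) x.1) :=
    ((wn_meas.comp ((hv'.comp measurable_snd).prodMk measurable_fst)).sub
      (((hv'.comp measurable_snd).norm.pow_const 2).div_const 2)).exp.ennreal_ofReal
  rw [lintegral_shift_random' K hv hK hF,
    ← lintegral_prod_symm (f := fun x : Om H × Om H =>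
      ENNReal.ofReal (dens wn (v x.2) x.1) * F (glue K x)) (md.mul (hF.comp hg)).aemeasurable]
  refine (ENNReal.lintegral_mul_le_Lp_mul_Lq _ hpq.symm md.aemeasurable
    (hF.comp hg).aemeasurable).trans ?_
  have e1 : ∫⁻ x, (F ∘ glue K) x ^ p ∂((wnP H).prod (wnP H)) = ∫⁻ ω, F ω ^ p ∂(wnP H) :=
    (glue_mp K).lintegral_comp (hF.pow_const p)
  rw [e1]
  refine mul_le_mul_left ?_ _
  have hq : 0 ≤ q - 1 := hpq.symm.sub_one_pos.le
  have hq0 : 0 < q := hpq.symm.pos
  have e2 : ∫⁻ x, ENNReal.ofReal (dens wn (v x.2) x.1) ^ q ∂((wnP H).prod (wnP H)) ≤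
      ENNReal.ofReal (Real.exp (q * (q - 1) * R ^ 2 / 2)) := by
    rw [lintegral_prod_symm _ (md.pow_const q).aemeasurable]
    calc ∫⁻ y, ∫⁻ x, ENNReal.ofReal (dens wn (v y) x) ^ q ∂(wnP H) ∂(wnP H)
        ≤ ∫⁻ _y, ENNReal.ofReal (Real.exp (q * (q - 1) * R ^ 2 / 2)) ∂(wnP H) := by
          refine lintegral_mono fun y => ?_
          rw [wn_isIso.lintegral_dens_rpow]
          have := hR y
          gcongr
      _ = _ := by simp
  refine (ENNReal.rpow_le_rpow e2 (by positivity)).trans (le_of_eq ?_)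
  rw [ENNReal.ofReal_rpow_of_pos (Real.exp_pos _), ← Real.exp_mul]
  congr 2
  field_simp

/-- total variation cost of a random shift, weighted by a `Kᗮ`-measurable variable -/
theorem abs_integral_shift_random_le (hv : Measurable[sig wn ((Kᗮ : Submodule ℝ H) : Set H)] v)
    (hK : ∀ ω, v ω ∈ K) {F G : Om H → ℝ} (hF : Measurable F) (hF1 : ∀ ω, |F ω| ≤ 1)
    (hG : Measurable[sig wn ((Kᗮ : Submodule ℝ H) : Set H)] G) (hGi : Integrable G (wnP H)) :
    |∫ ω, G ω * F (shift (v ω) ω) ∂(wnP H) - ∫ ω, G ω * F ω ∂(wnP H)| ≤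
      ∫ ω, |G ω| * min 2 (2 * ‖v ω‖) ∂(wnP H) := by
  have hv' : Measurable v := hv.mono (wn_isIso.sig_le _) le_rfl
  have hG' : Measurable G := hG.mono (wn_isIso.sig_le _) le_rfl
  have hg := (glue_mp K).measurable
  have hs : Measurable fun ω => shift (v ω) ω := shift_meas.comp (hv'.prodMk measurable_id)
  have hs2 : Measurable fun x : Om H × Om H => shift (v x.2) (glue K x) :=
    shift_meas.comp ((hv'.comp measurable_snd).prodMk hg)
  have iG2 : Integrable (fun x : Om H × Om H => G x.2) ((wnP H).prod (wnP H)) :=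
    (measurePreserving_snd.integrable_comp hGi.1).2 hGi
  have i1 : Integrable (fun x : Om H × Om H => G x.2 * F (shift (v x.2) (glue K x)))
      ((wnP H).prod (wnP H)) :=
    iG2.mul_bdd (hF.comp hs2).aestronglyMeasurable (ae_of_all _ fun x => hF1 _)
  have i2 : Integrable (fun x : Om H × Om H => G x.2 * F (glue K x)) ((wnP H).prod (wnP H)) :=
    iG2.mul_bdd (hF.comp hg).aestronglyMeasurable (ae_of_all _ fun x => hF1 _)
  have e1 : ∫ ω, G ω * F (shift (v ω) ω) ∂(wnP H) =
      ∫ x, G x.2 * F (shift (v x.2) (glue K x)) ∂((wnP H).prod (wnP H)) := by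
    rw [← integral_comp_mp (glue_mp K) (F := fun ω => G ω * F (shift (v ω) ω))
      (hG'.mul (hF.comp hs))]
    refine integral_congr_ae ?_
    filter_upwards [comp_glue_snd K hv, comp_glue_snd K hG] with x h1 h2
    simp only [h1, h2]
  have e2 : ∫ ω, G ω * F ω ∂(wnP H) = ∫ x, G x.2 * F (glue K x) ∂((wnP H).prod (wnP H)) := by
    rw [← integral_comp_mp (glue_mp K) (F := fun ω => G ω * F ω) (hG'.mul hF)]
    refine integral_congr_ae ?_
    filter_upwards [comp_glue_snd K hG] with x h2
    simp only [h2]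
  rw [e1, e2, integral_prod_symm _ i1, integral_prod_symm _ i2,
    ← integral_sub i1.integral_prod_right i2.integral_prod_right]
  refine abs_integral_le_integral_abs.trans (integral_mono_of_nonneg
    (ae_of_all _ fun y => abs_nonneg _) ?_ (ae_of_all _ fun y => ?_))
  · refine hGi.abs.mul_bdd (c := 2)
      (measurable_const.min (hv'.norm.const_mul 2)).aestronglyMeasurable (ae_of_all _ fun y => ?_)
    rw [Real.norm_eq_abs, abs_of_nonneg (le_min (by norm_num) (by positivity))]
    exact min_le_left _ _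
  · have m3 : Measurable fun x : Om H => F (glue K (x, y)) :=
      hF.comp (hg.comp measurable_prodMk_right)
    have e3 : ∫ x, F (shift (v y) (glue K (x, y))) ∂(wnP H) =
        ∫ x, dens wn (v y) x * F (glue K (x, y)) ∂(wnP H) := by
      rw [← integral_shift (v y) m3]
      refine integral_congr_ae ?_
      filter_upwards [glue_shift_ae K] with x hx
      rw [hx _ (hK y)]
    simp only [integral_const_mul]
    rw [← mul_sub, abs_mul, e3]
    refine mul_le_mul_of_nonneg_left ?_ (abs_nonneg _)
    simpa using wn_isIso.abs_integral_dens_mul_sub_le (v y) (C := 1) m3.aestronglyMeasurable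
      (ae_of_all _ fun x => hF1 _)

end LQ.Gauss
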