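import Pool.Agent.Lib.MP_0d9445_pr.Gauss.Law

/-! Gaussian toolkit, part 3: exact tilt (Cameron-Martin on any space) and its cost. -/

open MeasureTheory ProbabilityTheory Filter Topology
open scoped RealInnerProductSpace NNReal ENNReal

namespace LQ.Gauss

variable {H Ω : Type*} [NormedAddCommGroup H] [InnerProductSpace ℝ H] {mΩ : MeasurableSpace Ω}
  {P : Measure Ω} {W : H → Ω → ℝ}

omit [InnerProductSpace ℝ H] in
theorem dens_pos (W : H → Ω → ℝ) (v : H) (ω : Ω) : 0 < dens W v ω := Real.exp_pos _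

omit [InnerProductSpace ℝ H] in
theorem dens_rpow (W : H → Ω → ℝ) (v : H) (ω : Ω) (q : ℝ) :
    dens W v ω ^ q = Real.exp (-(q * ‖v‖ ^ 2 / 2)) * Real.exp (q * W v ω) := by
  rw [dens, ← Real.exp_mul, ← Real.exp_add]
  congr 1
  ring

namespace IsIso

theorem meas_dens (hW : IsIso W P) (v : H) : Measurable (dens W v) :=
  ((hW.meas v).sub_const _).exp

theorem integrable_dens_rpow (hW : IsIso W P) (v : H) (q : ℝ) :
    Integrable (fun ω => dens W v ω ^ q) P := by
  simp_rw [dens_rpow]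
  exact (hW.integrable_exp v q).const_mul _

theorem integral_dens_rpow (hW : IsIso W P) (v : H) (q : ℝ) :
    ∫ ω, dens W v ω ^ q ∂P = Real.exp (q * (q - 1) * ‖v‖ ^ 2 / 2) := by
  simp_rw [dens_rpow]
  rw [integral_const_mul, hW.integral_exp, ← Real.exp_add]
  congr 1
  ring

theorem integrable_dens (hW : IsIso W P) (v : H) : Integrable (dens W v) P := by
  simpa using hW.integrable_dens_rpow v 1

theorem integral_dens (hW : IsIso W P) (v : H) : ∫ ω, dens W v ω ∂P = 1 := by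
  simpa using hW.integral_dens_rpow v 1

theorem lintegral_dens_rpow (hW : IsIso W P) (v : H) (q : ℝ) :
    ∫⁻ ω, ENNReal.ofReal (dens W v ω) ^ q ∂P =
      ENNReal.ofReal (Real.exp (q * (q - 1) * ‖v‖ ^ 2 / 2)) := by
  rw [← hW.integral_dens_rpow v q, ofReal_integral_eq_lintegral_ofReal
    (hW.integrable_dens_rpow v q)
    (ae_of_all _ fun ω => Real.rpow_nonneg (dens_pos W v ω).le _)]
  exact lintegral_congr fun ω => ENNReal.ofReal_rpow_of_pos (dens_pos W v ω)

theorem lintegral_dens (hW : IsIso W P) (v : H) :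
    ∫⁻ ω, ENNReal.ofReal (dens W v ω) ∂P = 1 := by
  simpa using hW.lintegral_dens_rpow v 1

theorem tilt_prob (hW : IsIso W P) (v : H) : IsProbabilityMeasure (tilt W v P) :=
  ⟨by rw [tilt, withDensity_apply _ MeasurableSet.univ, Measure.restrict_univ, hW.lintegral_dens]⟩

theorem tilt_ac (hW : IsIso W P) (v : H) : tilt W v P ≪ P ∧ P ≪ tilt W v P :=
  ⟨withDensity_absolutelyContinuous _ _,
    withDensity_absolutelyContinuous' (hW.meas_dens v).ennreal_ofReal.aemeasurable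
      (ae_of_all _ fun ω => (ENNReal.ofReal_pos.2 (dens_pos W v ω)).ne')⟩

theorem lintegral_tilt_eq (hW : IsIso W P) (v : H) {F : Ω → ℝ≥0∞} (hF : AEMeasurable F P) :
    ∫⁻ ω, F ω ∂(tilt W v P) = ∫⁻ ω, ENNReal.ofReal (dens W v ω) * F ω ∂P :=
  lintegral_withDensity_eq_lintegral_mul₀ (hW.meas_dens v).ennreal_ofReal.aemeasurable hF

theorem integral_tilt_eq (hW : IsIso W P) (v : H) (F : Ω → ℝ) :
    ∫ ω, F ω ∂(tilt W v P) = ∫ ω, dens W v ω * F ω ∂P := by
  rw [tilt, integral_withDensity_eq_integral_toReal_smul (hW.meas_dens v).ennreal_ofReal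
    (ae_of_all _ fun ω => ENNReal.ofReal_lt_top)]
  refine integral_congr_ae (ae_of_all _ fun ω => ?_)
  simp [ENNReal.toReal_ofReal (dens_pos W v ω).le]

/-- Under the tilted measure `W - ⟪v, .⟫` is isonormal. -/
theorem tilt_isIso (hW : IsIso W P) (v : H) :
    IsIso (fun h ω => W h ω - ⟪v, h⟫) (tilt W v P) := by
  have := hW.tilt_prob v
  have hac := (hW.tilt_ac v).1
  refine of_exp (fun h => (hW.meas h).sub_const _) (fun f g => ?_) (fun a g => ?_) (fun h => ?_)
  · filter_upwards [hac.ae_le (hW.add f g)] with ω hω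
    rw [hω, inner_add_right]; ring
  · filter_upwards [hac.ae_le (hW.smul a g)] with ω hω
    rw [hω, real_inner_smul_right]; ring
  · rw [hW.integral_tilt_eq]
    have h1 : ∫ ω, dens W v ω * Real.exp (W h ω - ⟪v, h⟫) ∂P =
        ∫ ω, Real.exp (-(‖v‖ ^ 2 / 2) - ⟪v, h⟫) * Real.exp (1 * W (v + h) ω) ∂P := by
      refine integral_congr_ae ?_
      filter_upwards [hW.add v h] with ω hω
      rw [hω, dens, ← Real.exp_add, ← Real.exp_add]
      congr 1
      ring
    rw [h1, integral_const_mul, hW.integral_exp, ← Real.exp_add, norm_add_sq_real]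
    congr 1
    ring

theorem map_tilt (hW : IsIso W P) (v : H) {ι : Type*} (f : ι → H) :
    (tilt W v P).map (fun ω i => W (f i) ω) = P.map (fun ω i => W (f i) ω + ⟪v, f i⟫) := by
  have h1 := (hW.tilt_isIso v).map_eq_of_inner_eq hW (f := f) (f' := f) fun _ _ => rfl
  have hm : Measurable fun (x : ι → ℝ) i => x i + ⟪v, f i⟫ :=
    measurable_pi_lambda _ fun i => (measurable_pi_apply i).add_const _
  have h2 := congrArg (Measure.map fun (x : ι → ℝ) i => x i + ⟪v, f i⟫) h1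
  rw [Measure.map_map hm ((hW.tilt_isIso v).meas_family f),
    Measure.map_map hm (hW.meas_family f)] at h2
  convert h2 using 2
  · ext ω i
    simp
  · rfl

theorem lintegral_tilt (hW : IsIso W P) (v : H) {ι : Type*} (f : ι → H)
    {F : (ι → ℝ) → ℝ≥0∞} (hF : Measurable F) :
    ∫⁻ ω, ENNReal.ofReal (dens W v ω) * F (fun i => W (f i) ω) ∂P =
      ∫⁻ ω, F (fun i => W (f i) ω + ⟪v, f i⟫) ∂P := by
  have hm : Measurable fun ω i => W (f i) ω + ⟪v, f i⟫ :=
    measurable_pi_lambda _ fun i => (hW.meas _).add_const _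
  rw [← hW.lintegral_tilt_eq v (F := fun ω => F fun i => W (f i) ω)
      (hF.comp (hW.meas_family f)).aemeasurable,
    ← lintegral_map hF hm, ← hW.map_tilt, lintegral_map hF (hW.meas_family f)]

theorem integral_tilt (hW : IsIso W P) (v : H) {ι : Type*} (f : ι → H)
    {F : (ι → ℝ) → ℝ} (hF : Measurable F) :
    ∫ ω, dens W v ω * F (fun i => W (f i) ω) ∂P =
      ∫ ω, F (fun i => W (f i) ω + ⟪v, f i⟫) ∂P := by
  have hm : Measurable fun ω i => W (f i) ω + ⟪v, f i⟫ :=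
    measurable_pi_lambda _ fun i => (hW.meas _).add_const _
  rw [← hW.integral_tilt_eq v, ← integral_map hm.aemeasurable hF.aestronglyMeasurable,
    ← hW.map_tilt, integral_map (hW.meas_family f).aemeasurable hF.aestronglyMeasurable]

/-- Hoelder cost of a tilt. -/
theorem lintegral_dens_mul_le (hW : IsIso W P) (v : H) {F : Ω → ℝ≥0∞} (hF : AEMeasurable F P)
    {p q : ℝ} (hpq : p.HolderConjugate q) :
    ∫⁻ ω, ENNReal.ofReal (dens W v ω) * F ω ∂P ≤
      ENNReal.ofReal (Real.exp ((q - 1) * ‖v‖ ^ 2 / 2)) * (∫⁻ ω, F ω ^ p ∂P) ^ (1 / p) := by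
  have h1 := ENNReal.lintegral_mul_le_Lp_mul_Lq P hpq.symm
    (hW.meas_dens v).ennreal_ofReal.aemeasurable hF
  refine h1.trans (le_of_eq ?_)
  rw [hW.lintegral_dens_rpow, ENNReal.ofReal_rpow_of_pos (Real.exp_pos _), ← Real.exp_mul]
  congr 3
  have := hpq.symm.ne_zero
  field_simp

theorem lintegral_tilt_le (hW : IsIso W P) (v : H) {F : Ω → ℝ≥0∞} (hF : AEMeasurable F P)
    {p q : ℝ} (hpq : p.HolderConjugate q) :
    ∫⁻ ω, F ω ∂(tilt W v P) ≤
      ENNReal.ofReal (Real.exp ((q - 1) * ‖v‖ ^ 2 / 2)) * (∫⁻ ω, F ω ^ p ∂P) ^ (1 / p) := by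
  rw [hW.lintegral_tilt_eq v hF]
  exact hW.lintegral_dens_mul_le v hF hpq

theorem integral_abs_dens_sub_one_le_two (hW : IsIso W P) (v : H) :
    ∫ ω, |dens W v ω - 1| ∂P ≤ 2 := by
  have := hW.prob
  have i1 : Integrable (fun ω => dens W v ω + 1) P := (hW.integrable_dens v).add (integrable_const 1)
  calc ∫ ω, |dens W v ω - 1| ∂P ≤ ∫ ω, (dens W v ω + 1) ∂P := by
        refine integral_mono_of_nonneg (ae_of_all _ fun ω => abs_nonneg _) i1
          (ae_of_all _ fun ω => ?_)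
        have := dens_pos W v ω
        exact abs_le.2 ⟨by linarith, by linarith⟩
    _ = 2 := by
        rw [integral_add (hW.integrable_dens v) (integrable_const 1), hW.integral_dens]
        simp; norm_num

theorem integral_dens_sub_one_sq (hW : IsIso W P) (v : H) :
    Integrable (fun ω => (dens W v ω - 1) ^ 2) P ∧
      ∫ ω, (dens W v ω - 1) ^ 2 ∂P = Real.exp (‖v‖ ^ 2) - 1 := by
  have := hW.prob
  have e : ∀ ω, (dens W v ω - 1) ^ 2 = dens W v ω ^ (2 : ℝ) - 2 * dens W v ω + 1 := fun ω => by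
    rw [Real.rpow_two]; ring
  have i1 : Integrable (fun ω => dens W v ω ^ (2 : ℝ) - 2 * dens W v ω) P :=
    (hW.integrable_dens_rpow v 2).sub ((hW.integrable_dens v).const_mul 2)
  simp_rw [e]
  refine ⟨i1.add (integrable_const 1), ?_⟩
  rw [integral_add i1 (integrable_const 1),
    integral_sub (hW.integrable_dens_rpow v 2) ((hW.integrable_dens v).const_mul 2),
    integral_const_mul, hW.integral_dens, hW.integral_dens_rpow]
  have : (2 : ℝ) * (2 - 1) * ‖v‖ ^ 2 / 2 = ‖v‖ ^ 2 := by ring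
  rw [this]
  simp; ring

/-- Total variation cost of a tilt. -/
theorem integral_abs_dens_sub_one_le (hW : IsIso W P) (v : H) :
    ∫ ω, |dens W v ω - 1| ∂P ≤ 2 * ‖v‖ := by
  have := hW.prob
  rcases le_or_gt 1 ‖v‖ with h1 | h1
  · linarith [hW.integral_abs_dens_sub_one_le_two v]
  rcases eq_or_ne v 0 with rfl | hv
  · have h0 : ∫ ω, |dens W 0 ω - 1| ∂P = ∫ _ω, (0 : ℝ) ∂P := by
      refine integral_congr_ae ?_
      filter_upwards [hW.zero] with ω hω
      simp [dens, hω]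
    simp [h0]
  have hp : 0 < ‖v‖ := norm_pos_iff.2 hv
  obtain ⟨i2, e2⟩ := hW.integral_dens_sub_one_sq v
  have i3 : Integrable (fun ω => ‖v‖ / 2 + (2 * ‖v‖)⁻¹ * (dens W v ω - 1) ^ 2) P :=
    (integrable_const _).add (i2.const_mul _)
  have hs : ‖v‖ ^ 2 ≤ 1 := by nlinarith
  have h4 : Real.exp (‖v‖ ^ 2) - 1 ≤ 2 * ‖v‖ ^ 2 := by
    have h5 := Real.abs_exp_sub_one_le (x := ‖v‖ ^ 2) (by rwa [abs_of_nonneg (sq_nonneg _)])
    rw [abs_of_nonneg (sq_nonneg ‖v‖)] at h5
    exact (le_abs_self _).trans h5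
  calc ∫ ω, |dens W v ω - 1| ∂P
      ≤ ∫ ω, (‖v‖ / 2 + (2 * ‖v‖)⁻¹ * (dens W v ω - 1) ^ 2) ∂P := by
        refine integral_mono_of_nonneg (ae_of_all _ fun ω => abs_nonneg _) i3
          (ae_of_all _ fun ω => ?_)
        change |dens W v ω - 1| ≤ ‖v‖ / 2 + (2 * ‖v‖)⁻¹ * (dens W v ω - 1) ^ 2
        rw [← sq_abs (dens W v ω - 1)]
        generalize |dens W v ω - 1| = x
        have e : ‖v‖ / 2 + (2 * ‖v‖)⁻¹ * x ^ 2 - x = (2 * ‖v‖)⁻¹ * (x - ‖v‖) ^ 2 := by
          field_simp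
          ring
        have : 0 ≤ (2 * ‖v‖)⁻¹ * (x - ‖v‖) ^ 2 := by positivity
        linarith
    _ = ‖v‖ / 2 + (2 * ‖v‖)⁻¹ * (Real.exp (‖v‖ ^ 2) - 1) := by
        rw [integral_add (integrable_const _) (i2.const_mul _), integral_const_mul, e2]
        simp
    _ ≤ ‖v‖ / 2 + (2 * ‖v‖)⁻¹ * (2 * ‖v‖ ^ 2) := by gcongr
    _ ≤ 2 * ‖v‖ := by
        have e : (2 * ‖v‖)⁻¹ * (2 * ‖v‖ ^ 2) = ‖v‖ := by field_simp
        rw [e]; linarith

theorem integral_abs_dens_sub_one_le_min (hW : IsIso W P) (v : H) :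
    ∫ ω, |dens W v ω - 1| ∂P ≤ min 2 (2 * ‖v‖) :=
  le_min (hW.integral_abs_dens_sub_one_le_two v) (hW.integral_abs_dens_sub_one_le v)

theorem abs_integral_dens_mul_sub_le (hW : IsIso W P) (v : H) {F : Ω → ℝ} {C : ℝ}
    (hF : AEStronglyMeasurable F P) (hC : ∀ᵐ ω ∂P, |F ω| ≤ C) :
    |∫ ω, dens W v ω * F ω ∂P - ∫ ω, F ω ∂P| ≤ C * min 2 (2 * ‖v‖) := by
  have := hW.prob
  have hC0 : 0 ≤ C := by
    obtain ⟨ω, hω⟩ := hC.exists
    exact (abs_nonneg _).trans hω
  have iF : Integrable F P := Integrable.of_bound hF C hC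
  have iDF : Integrable (fun ω => dens W v ω * F ω) P :=
    (hW.integrable_dens v).mul_bdd hF hC
  have i1 : Integrable (fun ω => |dens W v ω - 1|) P :=
    ((hW.integrable_dens v).sub (integrable_const 1)).abs
  rw [← integral_sub iDF iF]
  calc |∫ ω, (dens W v ω * F ω - F ω) ∂P| ≤ ∫ ω, |dens W v ω * F ω - F ω| ∂P :=
        abs_integral_le_integral_abs
    _ ≤ ∫ ω, C * |dens W v ω - 1| ∂P := by
        refine integral_mono_of_nonneg (ae_of_all _ fun ω => abs_nonneg _) (i1.const_mul C) ?_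
        filter_upwards [hC] with ω hω
        rw [show dens W v ω * F ω - F ω = F ω * (dens W v ω - 1) by ring, abs_mul]
        exact mul_le_mul_of_nonneg_right hω (abs_nonneg _)
    _ ≤ C * min 2 (2 * ‖v‖) := by
        rw [integral_const_mul]
        exact mul_le_mul_of_nonneg_left (hW.integral_abs_dens_sub_one_le_min v) hC0

theorem abs_integral_tilt_sub_le (hW : IsIso W P) (v : H) {F : Ω → ℝ} {C : ℝ}
    (hF : AEStronglyMeasurable F P) (hC : ∀ᵐ ω ∂P, |F ω| ≤ C) :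
    |∫ ω, F ω ∂(tilt W v P) - ∫ ω, F ω ∂P| ≤ 2 * C * ‖v‖ := by
  have := hW.prob
  have hC0 : 0 ≤ C := by
    obtain ⟨ω, hω⟩ := hC.exists
    exact (abs_nonneg _).trans hω
  rw [hW.integral_tilt_eq]
  refine (hW.abs_integral_dens_mul_sub_le v hF hC).trans ?_
  calc C * min 2 (2 * ‖v‖) ≤ C * (2 * ‖v‖) := mul_le_mul_of_nonneg_left (min_le_right _ _) hC0
    _ = 2 * C * ‖v‖ := by ring

end IsIso

end LQ.Gauss
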